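import Pool.Agent.Helper96.ML.Step

/-! # Assembly: the number `ξ` with `limsup ‖ξ (b/a)^n‖ = t` -/

namespace Pool.Agent.Helper96.ML

open Filter Topology

lemma dist_ge {s x : ℝ} {v : ℤ} (hs0 : 0 ≤ s) (hs : s ≤ 1 / 2) (hx : x = v + s) (w : ℤ) :
    s ≤ |x - w| := by
  rw [hx]
  rcases lt_trichotomy w v with h | h | h
  · have h1 : (w : ℝ) + 1 ≤ v := by exact_mod_cast h
    rw [abs_of_nonneg (by linarith)]
    linarith
  · rw [h, abs_of_nonneg (by linarith)]
    linarith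
  · have h1 : (v : ℝ) + 1 ≤ w := by exact_mod_cast h
    rw [abs_of_nonpos (by linarith)]
    linarith

theorem exists_xi {a b : ℕ} (ha : 2 ≤ a) (hcop : a.Coprime b) (hab : a < b) {τ ρ t0 : ℝ}
    (hP : Par a b τ ρ t0) {t : ℝ} (ht0 : t0 ≤ t) (ht : t ≤ 1 / 2) :
    ∃ ξ : ℝ, (∀ n : ℕ, |ξ * ((b : ℝ) / a) ^ n - round (ξ * ((b : ℝ) / a) ^ n)| ≤ t) ∧
      ∀ ε : ℝ, 0 < ε → ∀ N : ℕ, ∃ n, N ≤ n ∧
        t - ε ≤ |ξ * ((b : ℝ) / a) ^ n - round (ξ * ((b : ℝ) / a) ^ n)| := by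
  have ha0 : 0 < a := by omega
  have hb0 : 0 < b := by omega
  have ha' : (0 : ℝ) < a := by exact_mod_cast ha0
  have hb' : (0 : ℝ) < b := by exact_mod_cast hb0
  have hab' : (a : ℝ) < b := by exact_mod_cast hab
  have hρ0 := hP.rho_pos
  have hτ0 := hP.tau_pos
  have hs := hP.sum_le
  have hρ32 := hP.rho_le
  have ht15 := hP.le_t0
  have hstep : ∀ (i : ℕ) (u0 : ℤ), ∃ (nA nB : ℕ) (v1 v : ℤ) (t' : ℝ), 0 < nB ∧
      t - ρ / (i + 1) ≤ t' ∧ t' ≤ t - ρ / (i + 1) / 2 ∧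
      GH ((a : ℝ) / b) t nA u0 τ ρ v1 t' (ρ / (i + 1) / 2) ∧
      GH ((a : ℝ) / b) t nB v1 t' (ρ / (i + 1) / 2) v τ ρ := by
    intro i u0
    have hi : (0 : ℝ) < (i : ℝ) + 1 := by positivity
    have hle : ρ / ((i : ℝ) + 1) ≤ ρ := by
      rw [div_le_iff₀ hi]
      have hi0 : (0 : ℝ) ≤ i := by positivity
      nlinarith
    exact step ha hcop hab hP ht0 (by positivity) hle (by linarith) u0
  choose nA nB v1 v t' hnB h1 h2 hGA hGB using hstep
  set γ : ℝ := (a : ℝ) / b with hγ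
  set β : ℝ := (b : ℝ) / a with hβ
  have hγ0 : 0 < γ := by positivity
  have hβ0 : 0 < β := by positivity
  have hγ1 : γ < 1 := by rw [hγ, div_lt_one hb']; exact hab'
  have hγβ : β * γ = 1 := by rw [hγ, hβ]; field_simp
  let S : ℕ → ℤ × ℕ := fun i => Nat.rec ((0 : ℤ), (0 : ℕ))
    (fun i s => (v i s.1, s.2 + (nA i s.1 + nB i s.1))) i
  set V : ℕ → ℤ := fun i => (S i).1 with hV
  set L : ℕ → ℕ := fun i => (S i).2 with hL
  have hV1 : ∀ i, V (i + 1) = v i (V i) := fun i => rfl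
  have hL1 : ∀ i, L (i + 1) = L i + (nA i (V i) + nB i (V i)) := fun i => rfl
  have hV0 : V 0 = 0 := rfl
  have hL0 : L 0 = 0 := rfl
  have hLi : ∀ i, i ≤ L i := by
    intro i
    induction i with
    | zero => exact Nat.zero_le _
    | succ i ih =>
      have := hnB i (V i)
      rw [hL1]
      omega
  have hcomb : ∀ i, GH γ t (nA i (V i) + nB i (V i)) (V i) τ ρ (V (i + 1)) τ ρ := by
    intro i
    rw [hV1]
    exact GH_trans hγ0.le (hGA i (V i)) (hGB i (V i))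
  have hall : ∀ i, GH γ t (L i) 0 τ ρ (V i) τ ρ := by
    intro i
    induction i with
    | zero =>
      rw [hV0, hL0]
      refine ⟨fun j hj => ⟨0, ?_⟩, ?_⟩
      · have hj0 : j = 0 := by omega
        subst hj0
        rw [pow_zero, one_mul, mul_one, Int.cast_zero, zero_add, sub_zero, abs_of_pos hτ0]
        linarith
      · rw [pow_zero, one_mul, mul_one, sub_self, abs_zero, sub_self]
    | succ i ih =>
      rw [hL1]
      exact GH_trans hγ0.le ih (hcomb i)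
  set lo : ℕ → ℝ := fun i => γ ^ (L i) * (V i + τ) - ρ * γ ^ (L i) with hlo
  set hi : ℕ → ℝ := fun i => γ ^ (L i) * (V i + τ) + ρ * γ ^ (L i) with hhi
  have hnest : ∀ i, |γ ^ (L (i + 1)) * (V (i + 1) + τ) - γ ^ (L i) * (V i + τ)|
      ≤ ρ * γ ^ (L i) - ρ * γ ^ (L (i + 1)) := by
    intro i
    have h3 := (hcomb i).2
    have e1 : γ ^ (L (i + 1)) * (V (i + 1) + τ) - γ ^ (L i) * (V i + τ)
        = γ ^ (L i) * (γ ^ (nA i (V i) + nB i (V i)) * (V (i + 1) + τ) - (V i + τ)) := by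
      rw [hL1, pow_add]; ring
    have e2 : ρ * γ ^ (L i) - ρ * γ ^ (L (i + 1))
        = γ ^ (L i) * (ρ - ρ * γ ^ (nA i (V i) + nB i (V i))) := by
      rw [hL1, pow_add]; ring
    rw [e1, e2, abs_mul, abs_of_pos (pow_pos hγ0 _)]
    exact mul_le_mul_of_nonneg_left h3 (pow_pos hγ0 _).le
  have hlomono : Monotone lo := by
    apply monotone_nat_of_le_succ
    intro i
    have := hnest i
    rw [abs_le] at this
    simp only [hlo]
    linarith [this.1]
  have hhianti : Antitone hi := by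
    apply antitone_nat_of_succ_le
    intro i
    have := hnest i
    rw [abs_le] at this
    simp only [hhi]
    linarith [this.2]
  have hlohi : lo ≤ hi := by
    intro i
    have : 0 < ρ * γ ^ (L i) := by positivity
    simp only [hlo, hhi]
    linarith
  have hmem := hlomono.ciSup_mem_iInter_Icc_of_antitone hhianti hlohi
  set ξ : ℝ := ⨆ i, lo i with hξ
  have hξi : ∀ i, |ξ - γ ^ (L i) * (V i + τ)| ≤ ρ * γ ^ (L i) := by
    intro i
    have h3 := Set.mem_iInter.mp hmem i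
    rw [Set.mem_Icc] at h3
    simp only [hlo, hhi] at h3
    rw [abs_le]
    constructor <;> linarith [h3.1, h3.2]
  have hpowmul : ∀ n m : ℕ, β ^ n * γ ^ (n + m) = γ ^ m := by
    intro n m
    rw [pow_add, ← mul_assoc, ← mul_pow, hγβ, one_pow, one_mul]
  -- distance at time `n` from the centre seen from `L i = n + m`
  have hdist : ∀ i n m : ℕ, L i = n + m → |ξ * β ^ n - γ ^ m * (V i + τ)| ≤ ρ * γ ^ m := by
    intro i n m hnm
    have h3 := hξi i
    rw [hnm] at h3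
    have h4 := mul_le_mul_of_nonneg_left h3 (pow_pos hβ0 n).le
    have e1 : ξ * β ^ n - γ ^ m * (V i + τ) = β ^ n * (ξ - γ ^ (n + m) * (V i + τ)) := by
      linear_combination ((V i : ℝ) + τ) * hpowmul n m
    have e2 : β ^ n * (ρ * γ ^ (n + m)) = ρ * γ ^ m := by
      linear_combination ρ * hpowmul n m
    rw [e1, abs_mul, abs_of_pos (pow_pos hβ0 n)]
    linarith
  refine ⟨ξ, fun n => ?_, fun ε hε N => ?_⟩
  · obtain ⟨m, hm⟩ := Nat.exists_eq_add_of_le (hLi n)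
    obtain ⟨w, hw⟩ := (hall n).1 m (by omega)
    have h3 := hdist n n m hm
    have h4 := round_le (ξ * β ^ n) w
    have h5 := abs_sub_le (ξ * β ^ n) (γ ^ m * (V n + τ)) w
    linarith
  · obtain ⟨k, hk⟩ := exists_nat_gt (2 * ρ / ε)
    set i : ℕ := max k N with hidef
    have hki : (k : ℝ) ≤ i := by exact_mod_cast le_max_left k N
    have hNi : N ≤ i := le_max_right k N
    have hi1 : (0 : ℝ) < (i : ℝ) + 1 := by positivity
    have hδ : 2 * (ρ / ((i : ℝ) + 1)) ≤ ε := by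
      rw [div_lt_iff₀ hε] at hk
      rw [← mul_div_assoc, div_le_iff₀ hi1]
      nlinarith
    have hδρ : ρ / ((i : ℝ) + 1) ≤ ρ := by
      rw [div_le_iff₀ hi1]
      have hi0 : (0 : ℝ) ≤ i := by positivity
      nlinarith
    have hδ0 : 0 < ρ / ((i : ℝ) + 1) := by positivity
    refine ⟨L i + nA i (V i), ?_, ?_⟩
    · have := hLi i
      omega
    · set n : ℕ := L i + nA i (V i) with hn
      have h3 := hdist (i + 1) n (nB i (V i)) (by rw [hL1, hn]; ring)
      have h4 := (hGB i (V i)).2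
      rw [← hV1] at h4
      have h5 := h1 i (V i)
      have h6 := h2 i (V i)
      have h7 := abs_sub_le (ξ * β ^ n) (γ ^ (nB i (V i)) * (V (i + 1) + τ))
        (v1 i (V i) + t' i (V i))
      have h8 : |ξ * β ^ n - (v1 i (V i) + t' i (V i))| ≤ ρ / ((i : ℝ) + 1) / 2 := by linarith
      rw [abs_le] at h8
      have h9 := dist_ge (s := ξ * β ^ n - v1 i (V i)) (x := ξ * β ^ n) (v := v1 i (V i))
        (by linarith [h8.1]) (by linarith [h8.2]) (by ring) (round (ξ * β ^ n))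
      linarith [h8.1]

theorem exists_limsup {a b : ℕ} (ha : 2 ≤ a) (hcop : a.Coprime b) (hab : a < b) {τ ρ t0 : ℝ}
    (hP : Par a b τ ρ t0) {t : ℝ} (ht0 : t0 ≤ t) (ht : t ≤ 1 / 2) :
    ∃ ξ : ℝ, (∀ n : ℕ, |ξ * ((b : ℝ) / a) ^ n - round (ξ * ((b : ℝ) / a) ^ n)| ≤ t) ∧
      limsup (fun n : ℕ => |ξ * ((b : ℝ) / a) ^ n - round (ξ * ((b : ℝ) / a) ^ n)|)
        atTop = t := by
  obtain ⟨ξ, h1, h2⟩ := exists_xi ha hcop hab hP ht0 ht
  refine ⟨ξ, h1, ?_⟩
  set f : ℕ → ℝ := fun n : ℕ => |ξ * ((b : ℝ) / a) ^ n - round (ξ * ((b : ℝ) / a) ^ n)| with hf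
  have hbdd : IsBoundedUnder (· ≤ ·) atTop f := isBoundedUnder_of ⟨t, h1⟩
  have hcobdd : IsCoboundedUnder (· ≤ ·) atTop f :=
    IsBoundedUnder.isCoboundedUnder_le (isBoundedUnder_of ⟨0, fun n => abs_nonneg _⟩)
  apply le_antisymm
  · exact limsup_le_of_le hcobdd (Eventually.of_forall h1)
  · apply le_of_forall_pos_sub_le
    intro ε hε
    apply le_limsup_of_frequently_le _ hbdd
    rw [frequently_atTop]
    intro N
    obtain ⟨n, hn, hn2⟩ := h2 ε hε N
    exact ⟨n, hn, hn2⟩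

end Pool.Agent.Helper96.ML
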