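import Mathlib

/-!
# Small intervals pulled back along multiplication by `b/a`

`G γ τ ρ t n u v` : the interval `[v + τ - ρ, v + τ + ρ]`, multiplied by `γ ^ n` (`γ = a/b`), lies in
`[u + τ - ρ, u + τ + ρ]`, and for every `j ≤ n` its multiple by `γ ^ j` lies in some `[w - t, w + t]`.
-/

namespace Pool.Agent.Helper96.ML

/-- general form: start interval of centre `u + x` and radius `r1`, end interval of centre `v + y`
and radius `r2` -/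
def GH (γ t : ℝ) (n : ℕ) (u : ℤ) (x r1 : ℝ) (v : ℤ) (y r2 : ℝ) : Prop :=
  (∀ j ≤ n, ∃ w : ℤ, |γ ^ j * (v + y) - w| ≤ t - r2 * γ ^ j) ∧
    |γ ^ n * (v + y) - (u + x)| ≤ r1 - r2 * γ ^ n

def G (γ τ ρ t : ℝ) (n : ℕ) (u v : ℤ) : Prop := GH γ t n u τ ρ v τ ρ

lemma GH_mono {γ t t' : ℝ} (h : t ≤ t') {n : ℕ} {u v : ℤ} {x y r1 r2 : ℝ}
    (hG : GH γ t n u x r1 v y r2) : GH γ t' n u x r1 v y r2 := by
  refine ⟨fun j hj => ?_, hG.2⟩
  obtain ⟨w, hw⟩ := hG.1 j hj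
  exact ⟨w, by linarith⟩

lemma GH_trans {γ t : ℝ} (hγ : 0 ≤ γ) {n m : ℕ} {u v w : ℤ} {x y z r1 r2 r3 : ℝ}
    (h1 : GH γ t n u x r1 v y r2) (h2 : GH γ t m v y r2 w z r3) :
    GH γ t (n + m) u x r1 w z r3 := by
  have key : ∀ i : ℕ, |γ ^ (m + i) * (w + z) - γ ^ i * (v + y)|
      ≤ r2 * γ ^ i - r3 * γ ^ (m + i) := by
    intro i
    have e1 : γ ^ (m + i) * (w + z) - γ ^ i * (v + y) = γ ^ i * (γ ^ m * (w + z) - (v + y)) := by
      rw [pow_add]; ring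
    have e2 : r2 * γ ^ i - r3 * γ ^ (m + i) = γ ^ i * (r2 - r3 * γ ^ m) := by rw [pow_add]; ring
    rw [e1, e2, abs_mul, abs_of_nonneg (pow_nonneg hγ i)]
    exact mul_le_mul_of_nonneg_left h2.2 (pow_nonneg hγ i)
  refine ⟨fun j hj => ?_, ?_⟩
  · rcases le_or_gt j m with hjm | hjm
    · exact h2.1 j hjm
    · obtain ⟨i, rfl⟩ := Nat.exists_eq_add_of_lt hjm
      have hi : i + 1 ≤ n := by omega
      obtain ⟨w', hw'⟩ := h1.1 (i + 1) hi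
      refine ⟨w', ?_⟩
      have hk := key (i + 1)
      have e3 : m + i + 1 = m + (i + 1) := by ring
      rw [e3]
      have := abs_sub_le (γ ^ (m + (i + 1)) * (w + z)) (γ ^ (i + 1) * (v + y)) w'
      linarith
  · have hk := key n
    have e : n + m = m + n := by ring
    rw [e]
    have := abs_sub_le (γ ^ (m + n) * (w + z)) (γ ^ n * (v + y)) (u + x)
    linarith [h1.2]

lemma G_mono {γ τ ρ t t' : ℝ} (h : t ≤ t') {n : ℕ} {u v : ℤ} (hG : G γ τ ρ t n u v) :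
    G γ τ ρ t' n u v := GH_mono h hG

lemma G_trans {γ τ ρ t : ℝ} (hγ : 0 ≤ γ) {n m : ℕ} {u v w : ℤ}
    (h1 : G γ τ ρ t n u v) (h2 : G γ τ ρ t m v w) : G γ τ ρ t (n + m) u w := GH_trans hγ h1 h2

lemma G_shift {a b : ℕ} (hb : 0 < b) {τ ρ t : ℝ} {n : ℕ} {u v : ℤ}
    (h : G ((a : ℝ) / b) τ ρ t n u v) (s : ℤ) :
    G ((a : ℝ) / b) τ ρ t n (u + (a : ℤ) ^ n * s) (v + (b : ℤ) ^ n * s) := by
  have hb' : (b : ℝ) ≠ 0 := by positivity
  have key : ∀ j ≤ n, ((a : ℝ) / b) ^ j * (b : ℝ) ^ n = (a : ℝ) ^ j * (b : ℝ) ^ (n - j) := by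
    intro j hj
    obtain ⟨i, rfl⟩ := Nat.exists_eq_add_of_le hj
    rw [Nat.add_sub_cancel_left, pow_add, div_pow]
    field_simp
  refine ⟨fun j hj => ?_, ?_⟩
  · obtain ⟨w, hw⟩ := h.1 j hj
    refine ⟨w + (a : ℤ) ^ j * (b : ℤ) ^ (n - j) * s, ?_⟩
    have e : ((a : ℝ) / b) ^ j * (((v + (b : ℤ) ^ n * s : ℤ) : ℝ) + τ)
        - ((w + (a : ℤ) ^ j * (b : ℤ) ^ (n - j) * s : ℤ) : ℝ)
        = ((a : ℝ) / b) ^ j * (v + τ) - w := by
      push_cast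
      have := key j hj
      linear_combination (s : ℝ) * this
    rw [e]; exact hw
  · have e : ((a : ℝ) / b) ^ n * (((v + (b : ℤ) ^ n * s : ℤ) : ℝ) + τ)
        - (((u + (a : ℤ) ^ n * s : ℤ) : ℝ) + τ) = ((a : ℝ) / b) ^ n * (v + τ) - (u + τ) := by
      push_cast
      have := key n le_rfl
      rw [Nat.sub_self, pow_zero, mul_one] at this
      linear_combination (s : ℝ) * this
    rw [e]; exact h.2

lemma near_of_far {y r : ℝ} (h : ∀ k : ℤ, r ≤ |y - (k + 1 / 2)|) : ∃ w : ℤ, |y - w| ≤ 1 / 2 - r := by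
  refine ⟨⌊y + 1 / 2⌋, ?_⟩
  have h1 := Int.floor_le (y + 1 / 2)
  have h2 := Int.lt_floor_add_one (y + 1 / 2)
  have h3 := h ⌊y + 1 / 2⌋
  have h4 := h (⌊y + 1 / 2⌋ - 1)
  push_cast at h4
  rw [abs_of_nonpos (by linarith)] at h3
  rw [abs_of_nonneg (by linarith)] at h4
  rw [abs_le]
  constructor <;> linarith

/-- cut points of small generation are never within `τ` of `v + τ` -/
lemma cut_small {a b : ℕ} (ha : 0 < a) {j0 j : ℕ} (hj : j ≤ j0) {τ : ℝ}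
    (hτ : τ = 1 / (4 * (a : ℝ) ^ j0)) (v h : ℤ) :
    τ ≤ |(v + τ : ℝ) - ((b : ℝ) / a) ^ j * (h + 1 / 2)| := by
  have ha' : (0 : ℝ) < a := by positivity
  have hA : (0 : ℝ) < (a : ℝ) ^ j := by positivity
  have hA0 : (0 : ℝ) < (a : ℝ) ^ j0 := by positivity
  have ha1 : (1 : ℝ) ≤ a := by exact_mod_cast ha
  have hAA : (a : ℝ) ^ j ≤ (a : ℝ) ^ j0 := pow_le_pow_right₀ ha1 hj
  have hτ0 : 0 < τ := by rw [hτ]; positivity
  have hθ : 2 * (a : ℝ) ^ j * τ ≤ 1 / 2 := by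
    rw [hτ, mul_one_div, div_le_iff₀ (by positivity)]
    linarith
  have e : 2 * (a : ℝ) ^ j * ((v + τ : ℝ) - ((b : ℝ) / a) ^ j * (h + 1 / 2))
      = ((2 * (a : ℤ) ^ j * v - (b : ℤ) ^ j * (2 * h + 1) : ℤ) : ℝ) + 2 * (a : ℝ) ^ j * τ := by
    push_cast
    rw [div_pow]
    field_simp
    ring
  set N : ℤ := 2 * (a : ℤ) ^ j * v - (b : ℤ) ^ j * (2 * h + 1) with hN
  have h2 : 2 * (a : ℝ) ^ j * τ ≤ |(N : ℝ) + 2 * (a : ℝ) ^ j * τ| := by
    rcases le_or_gt 0 N with h0 | h0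
    · have : (0 : ℝ) ≤ N := by exact_mod_cast h0
      rw [abs_of_nonneg (by positivity)]
      linarith
    · have : (N : ℝ) ≤ -1 := by exact_mod_cast (by omega : N ≤ -1)
      rw [abs_of_nonpos (by linarith)]
      linarith
  rw [← e, abs_mul, abs_of_pos (by positivity : (0 : ℝ) < 2 * (a : ℝ) ^ j)] at h2
  exact le_of_mul_le_mul_left h2 (by positivity)

end Pool.Agent.Helper96.ML
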