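import Pool.Agent.Helper96.ML.Basic

/-! # Counting the bad centres in a window of consecutive integers -/

namespace Pool.Agent.Helper96.ML

open Classical in
/-- bad indices of generation `j` in the window `v0, ..., v0 + M - 1` -/
noncomputable def Bad (β τ : ℝ) (j M : ℕ) (v0 : ℤ) : Finset ℕ :=
  (Finset.range M).filter (fun i : ℕ =>
    ∃ h : ℤ, |(((v0 + i : ℤ) : ℝ) + τ) - β ^ j * (h + 1 / 2)| < τ)

lemma mem_Bad {β τ : ℝ} {j M : ℕ} {v0 : ℤ} {i : ℕ} : i ∈ Bad β τ j M v0 ↔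
    i < M ∧ ∃ h : ℤ, |(((v0 + i : ℤ) : ℝ) + τ) - β ^ j * (h + 1 / 2)| < τ := by
  classical
  unfold Bad
  rw [Finset.mem_filter, Finset.mem_range]

open Classical in
lemma Bad_card {γ β τ : ℝ} (hγ : 0 < γ) (hγβ : γ * β = 1) (hτ : τ ≤ 1 / 4) (j M : ℕ)
    (v0 : ℤ) : ((Bad β τ j M v0).card : ℝ) ≤ γ ^ j * M + 1 := by
  have hgj : 0 < γ ^ j := pow_pos hγ j
  have hgb : γ ^ j * β ^ j = 1 := by rw [← mul_pow, hγβ, one_pow]
  set lo : ℤ := ⌈γ ^ j * v0 - 1 / 2⌉ with hlo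
  set hi : ℤ := ⌊γ ^ j * (v0 + M) - 1 / 2⌋ with hhi
  have hP : ∀ i ∈ Bad β τ j M v0, i < M ∧
      ∃ h : ℤ, |(((v0 + i : ℤ) : ℝ) + τ) - β ^ j * (h + 1 / 2)| < τ := by
    intro i hi'
    exact mem_Bad.mp hi'
  let φ : ℕ → ℤ := fun i =>
    if hx : ∃ h : ℤ, |(((v0 + i : ℤ) : ℝ) + τ) - β ^ j * (h + 1 / 2)| < τ then
      Classical.choose hx else 0
  have hφ : ∀ i ∈ Bad β τ j M v0,
      |(((v0 + i : ℤ) : ℝ) + τ) - β ^ j * ((φ i : ℝ) + 1 / 2)| < τ := by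
    intro i hi'
    have hx := (hP i hi').2
    have : φ i = Classical.choose hx := by simp only [φ, dif_pos hx]
    rw [this]
    exact Classical.choose_spec hx
  have hmaps : ∀ i ∈ Bad β τ j M v0, φ i ∈ Finset.Icc lo hi := by
    intro i hi'
    have h1 := hφ i hi'
    have h2 := (hP i hi').1
    rw [abs_lt] at h1
    push_cast at h1
    have hiM : (i : ℝ) + 1 ≤ M := by exact_mod_cast h2
    have hi0 : (0 : ℝ) ≤ i := by positivity
    have h3 : (v0 : ℝ) ≤ β ^ j * ((φ i : ℝ) + 1 / 2) := by linarith [h1.2]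
    have h4 : β ^ j * ((φ i : ℝ) + 1 / 2) ≤ v0 + M := by linarith [h1.1]
    have h5 : γ ^ j * v0 ≤ (φ i : ℝ) + 1 / 2 := by
      calc γ ^ j * v0 ≤ γ ^ j * (β ^ j * ((φ i : ℝ) + 1 / 2)) :=
            mul_le_mul_of_nonneg_left h3 hgj.le
        _ = (φ i : ℝ) + 1 / 2 := by rw [← mul_assoc, hgb, one_mul]
    have h6 : (φ i : ℝ) + 1 / 2 ≤ γ ^ j * (v0 + M) := by
      calc (φ i : ℝ) + 1 / 2 = γ ^ j * (β ^ j * ((φ i : ℝ) + 1 / 2)) := by
            rw [← mul_assoc, hgb, one_mul]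
        _ ≤ γ ^ j * (v0 + M) := mul_le_mul_of_nonneg_left h4 hgj.le
    rw [Finset.mem_Icc]
    constructor
    · exact Int.ceil_le.mpr (by linarith)
    · exact Int.le_floor.mpr (by linarith)
  have hinj : Set.InjOn φ (Bad β τ j M v0 : Set ℕ) := by
    intro i hi' i' hi'' hii
    have h1 := hφ i hi'
    have h2 := hφ i' hi''
    rw [hii] at h1
    rw [abs_lt] at h1 h2
    push_cast at h1 h2
    have h3 : (i : ℝ) < i' + 1 := by linarith [h1.1, h1.2, h2.1, h2.2]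
    have h4 : (i' : ℝ) < i + 1 := by linarith [h1.1, h1.2, h2.1, h2.2]
    have h5 : i < i' + 1 := by exact_mod_cast h3
    have h6 : i' < i + 1 := by exact_mod_cast h4
    omega
  have hc := Finset.card_le_card_of_injOn φ hmaps hinj
  rw [Int.card_Icc] at hc
  have hc2 : ((Bad β τ j M v0).card : ℝ) ≤ (((hi + 1 - lo).toNat : ℕ) : ℝ) := by exact_mod_cast hc
  have hM0 : (0 : ℝ) ≤ γ ^ j * M := by positivity
  have h7 : (((hi + 1 - lo).toNat : ℕ) : ℝ) ≤ γ ^ j * M + 1 := by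
    have e : (((hi + 1 - lo).toNat : ℕ) : ℝ) = ((((hi + 1 - lo).toNat : ℕ) : ℤ) : ℝ) := by
      push_cast; rfl
    rw [e, Int.ofNat_toNat]
    have hf := Int.floor_le (γ ^ j * (v0 + M) - 1 / 2)
    have hcl := Int.le_ceil (γ ^ j * (v0 : ℝ) - 1 / 2)
    rw [← hhi] at hf
    rw [← hlo] at hcl
    push_cast
    apply max_le
    · linarith
    · linarith
  linarith

open Classical in
/-- all bad indices of generations `j0 < j ≤ m` -/
noncomputable def BadAll (β τ : ℝ) (j0 m M : ℕ) (v0 : ℤ) : Finset ℕ :=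
  (Finset.Ico (j0 + 1) (m + 1)).biUnion (fun j => Bad β τ j M v0)

lemma BadAll_card {γ β τ : ℝ} (hγ : 0 < γ) (hγ1 : γ < 1) (hγβ : γ * β = 1)
    (hτ : τ ≤ 1 / 4) (j0 m M : ℕ) (hj0 : γ ^ (j0 + 1) / (1 - γ) ≤ 1 / 16) (v0 : ℤ) :
    ((BadAll β τ j0 m M v0).card : ℝ) ≤ M / 16 + m := by
  have h1 : ((BadAll β τ j0 m M v0).card : ℝ)
      ≤ ∑ j ∈ Finset.Ico (j0 + 1) (m + 1), ((Bad β τ j M v0).card : ℝ) := by
    have := Finset.card_biUnion_le (s := Finset.Ico (j0 + 1) (m + 1))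
      (t := fun j => Bad β τ j M v0)
    rw [BadAll]
    exact_mod_cast this
  have h2 : ∑ j ∈ Finset.Ico (j0 + 1) (m + 1), ((Bad β τ j M v0).card : ℝ)
      ≤ ∑ j ∈ Finset.Ico (j0 + 1) (m + 1), (γ ^ j * M + 1) :=
    Finset.sum_le_sum (fun j _ => Bad_card hγ hγβ hτ j M v0)
  have h3 : ∑ j ∈ Finset.Ico (j0 + 1) (m + 1), (γ ^ j * M + 1)
      = (∑ j ∈ Finset.Ico (j0 + 1) (m + 1), γ ^ j) * M + ((m + 1 - (j0 + 1) : ℕ) : ℝ) := by
    rw [Finset.sum_add_distrib, Finset.sum_mul]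
    simp
  have h4 : ∑ j ∈ Finset.Ico (j0 + 1) (m + 1), γ ^ j ≤ 1 / 16 :=
    (geom_sum_Ico_le_of_lt_one hγ.le hγ1).trans hj0
  have h5 : ((m + 1 - (j0 + 1) : ℕ) : ℝ) ≤ m := by exact_mod_cast (by omega)
  have hM : (0 : ℝ) ≤ M := by positivity
  have h6 : (∑ j ∈ Finset.Ico (j0 + 1) (m + 1), γ ^ j) * (M : ℝ) ≤ 1 / 16 * M :=
    mul_le_mul_of_nonneg_right h4 hM
  linarith

/-- two good centres at once -/
theorem pair_good {a b : ℕ} (ha : 0 < a) (hab : a < b) {j0 m n1 : ℕ} {τ ρ W : ℝ} (hW : 0 ≤ W)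
    (hτ : τ = 1 / (4 * (a : ℝ) ^ j0)) (hρ : ρ = τ / 2)
    (hj0 : ((a : ℝ) / b) ^ (j0 + 1) / (1 - (a : ℝ) / b) ≤ 1 / 16) (hm : m ≤ n1)
    (hM : 3 * (m : ℝ) + 2 ≤ 2 * (ρ * (((b : ℝ) / a) ^ m - 1)) - 2 * W) (u k k' : ℤ)
    (hk : |(k' : ℝ) - ((b : ℝ) / a) ^ m * k| ≤ W) :
    ∃ v : ℤ, G ((a : ℝ) / b) τ ρ (1 / 2 - ρ * ((a : ℝ) / b) ^ n1) m u v ∧
      G ((a : ℝ) / b) τ ρ (1 / 2 - ρ * ((a : ℝ) / b) ^ n1) m (u + k) (v + k') := by
  have ha' : (0 : ℝ) < a := by positivity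
  have hb' : (0 : ℝ) < b := by
    have : 0 < b := by omega
    positivity
  have hab' : (a : ℝ) < b := by exact_mod_cast hab
  set γ : ℝ := (a : ℝ) / b with hγ
  set β : ℝ := (b : ℝ) / a with hβ
  have hγ0 : 0 < γ := by positivity
  have hγ1 : γ < 1 := by rw [hγ, div_lt_one hb']; exact hab'
  have hγβ : γ * β = 1 := by rw [hγ, hβ]; field_simp
  have hτ0 : 0 < τ := by rw [hτ]; positivity
  have hτ4 : τ ≤ 1 / 4 := by
    rw [hτ]
    have h1 : (1 : ℝ) ≤ (a : ℝ) ^ j0 := one_le_pow₀ (by exact_mod_cast ha)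
    apply one_div_le_one_div_of_le (by norm_num)
    linarith
  have hρ0 : 0 < ρ := by rw [hρ]; positivity
  set R : ℝ := ρ * (β ^ m - 1) with hR
  set C : ℝ := β ^ m * (u + τ) - τ with hC
  set v0 : ℤ := ⌈C - R + W⌉ with hv0
  set M : ℕ := ⌊2 * R - 2 * W⌋₊ with hMdef
  have hR4 : 0 ≤ 2 * R - 2 * W := by
    have : (0 : ℝ) ≤ m := by positivity
    linarith
  have hM1 : (M : ℝ) ≤ 2 * R - 2 * W := Nat.floor_le hR4
  have hM2 : 3 * (m : ℝ) + 1 ≤ M := by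
    have := Nat.lt_floor_add_one (2 * R - 2 * W)
    rw [← hMdef] at this
    linarith
  have hb1 := BadAll_card hγ0 hγ1 hγβ hτ4 j0 m M hj0 v0
  have hb2 := BadAll_card hγ0 hγ1 hγβ hτ4 j0 m M hj0 (v0 + k')
  -- an index which is good for both
  have hex : ∃ i < M, i ∉ BadAll β τ j0 m M v0 ∧ i ∉ BadAll β τ j0 m M (v0 + k') := by
    by_contra hcon
    push Not at hcon
    have hsub : Finset.range M ⊆ BadAll β τ j0 m M v0 ∪ BadAll β τ j0 m M (v0 + k') := by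
      intro i hi
      rw [Finset.mem_range] at hi
      rw [Finset.mem_union]
      by_cases h1 : i ∈ BadAll β τ j0 m M v0
      · exact Or.inl h1
      · exact Or.inr (hcon i hi h1)
    have hc := (Finset.card_le_card hsub).trans (Finset.card_union_le _ _)
    rw [Finset.card_range] at hc
    have hc' : (M : ℝ) ≤ (BadAll β τ j0 m M v0).card + (BadAll β τ j0 m M (v0 + k')).card := by
      exact_mod_cast hc
    have hm0 : (0 : ℝ) ≤ m := by positivity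
    linarith
  obtain ⟨i, hiM, hg1, hg2⟩ := hex
  have hiM' : (i : ℝ) + 1 ≤ M := by exact_mod_cast hiM
  have hi0 : (0 : ℝ) ≤ i := by positivity
  have hc1 := Int.le_ceil (C - R + W)
  have hc2 := Int.ceil_lt_add_one (C - R + W)
  rw [← hv0] at hc1 hc2
  -- good centres
  have good : ∀ w0 : ℤ, i ∉ BadAll β τ j0 m M w0 → ∀ j ≤ m,
      ∃ w : ℤ, |γ ^ j * (((w0 + i : ℤ) : ℝ) + τ) - w| ≤ 1 / 2 - ρ * γ ^ n1 - ρ * γ ^ j := by
    intro w0 hw0 j hj
    have hgj : 0 < γ ^ j := pow_pos hγ0 j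
    rcases Nat.eq_zero_or_pos j with h0 | h0
    · refine ⟨w0 + i, ?_⟩
      rw [h0, pow_zero, one_mul, mul_one]
      have e : (((w0 + i : ℤ) : ℝ) + τ) - ((w0 + i : ℤ) : ℝ) = τ := by ring
      rw [e, abs_of_pos hτ0]
      have : ρ * γ ^ n1 ≤ ρ * 1 := mul_le_mul_of_nonneg_left (pow_le_one₀ hγ0.le hγ1.le) hρ0.le
      linarith
    · have hfar : ∀ h : ℤ, τ ≤ |(((w0 + i : ℤ) : ℝ) + τ) - β ^ j * (h + 1 / 2)| := by
        intro h
        rcases le_or_gt j j0 with hjj | hjj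
        · exact cut_small ha hjj hτ (w0 + i) h
        · by_contra hlt
          push Not at hlt
          apply hw0
          rw [BadAll, Finset.mem_biUnion]
          refine ⟨j, Finset.mem_Ico.mpr ⟨by omega, by omega⟩, ?_⟩
          exact mem_Bad.mpr ⟨hiM, h, hlt⟩
      have hgb : γ ^ j * β ^ j = 1 := by rw [← mul_pow, hγβ, one_pow]
      have hn : ρ * γ ^ n1 ≤ ρ * γ ^ j :=
        mul_le_mul_of_nonneg_left (pow_le_pow_of_le_one hγ0.le hγ1.le (hj.trans hm)) hρ0.le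
      have hfar2 : ∀ h : ℤ, ρ * γ ^ n1 + ρ * γ ^ j
          ≤ |γ ^ j * (((w0 + i : ℤ) : ℝ) + τ) - (h + 1 / 2)| := by
        intro h
        have e : γ ^ j * (((w0 + i : ℤ) : ℝ) + τ) - (h + 1 / 2)
            = γ ^ j * ((((w0 + i : ℤ) : ℝ) + τ) - β ^ j * (h + 1 / 2)) := by
          linear_combination ((h : ℝ) + 1 / 2) * hgb
        rw [e, abs_mul, abs_of_pos hgj]
        have h1 := mul_le_mul_of_nonneg_left (hfar h) hgj.le
        have h2 : γ ^ j * τ = 2 * (ρ * γ ^ j) := by rw [hρ]; ring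
        linarith
      obtain ⟨w, hw⟩ := near_of_far hfar2
      exact ⟨w, by linarith⟩
  have hgm : 0 < γ ^ m := pow_pos hγ0 m
  have hgbm : γ ^ m * β ^ m = 1 := by rw [← mul_pow, hγβ, one_pow]
  have endpt : ∀ x y : ℝ, |x - β ^ m * y| ≤ R → |γ ^ m * x - y| ≤ ρ - ρ * γ ^ m := by
    intro x y hxy
    have e : γ ^ m * x - y = γ ^ m * (x - β ^ m * y) := by linear_combination y * hgbm
    rw [e, abs_mul, abs_of_pos hgm]
    have h1 := mul_le_mul_of_nonneg_left hxy hgm.le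
    have h2 : γ ^ m * R = ρ - ρ * γ ^ m := by rw [hR]; linear_combination ρ * hgbm
    linarith
  rw [abs_le] at hk
  refine ⟨v0 + i, ⟨fun j hj => ?_, ?_⟩, ⟨fun j hj => ?_, ?_⟩⟩
  · exact good v0 hg1 j hj
  · apply endpt
    push_cast
    rw [abs_le]
    constructor <;> linarith
  · have e : v0 + (i : ℤ) + k' = (v0 + k') + i := by ring
    rw [e]
    exact good (v0 + k') hg2 j hj
  · apply endpt
    push_cast
    rw [abs_le]
    constructor <;> linarith [hk.1, hk.2]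

end Pool.Agent.Helper96.ML
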