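import Mathlib

/-! # The branching sets `E i` and differences of exact `a`-adic order -/

namespace Pool.Agent.Helper96.ML

/-- `x ↦ ⌊B x⌋ + c`, `c < w`, iterated from `0` -/
noncomputable def E (B : ℝ) (w : ℕ) : ℕ → Finset ℤ
  | 0 => {0}
  | i + 1 => (E B w i ×ˢ Finset.range w).image (fun q : ℤ × ℕ => ⌊B * q.1⌋ + q.2)

lemma E_zero {B : ℝ} {w : ℕ} : E B w 0 = {0} := rfl

lemma mem_E_succ {B : ℝ} {w i : ℕ} {x : ℤ} : x ∈ E B w (i + 1) ↔
    ∃ y ∈ E B w i, ∃ c : ℕ, c < w ∧ ⌊B * y⌋ + (c : ℤ) = x := by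
  change x ∈ (E B w i ×ˢ Finset.range w).image (fun q : ℤ × ℕ => ⌊B * q.1⌋ + q.2) ↔ _
  rw [Finset.mem_image]
  constructor
  · rintro ⟨⟨y, c⟩, hq, rfl⟩
    rw [Finset.mem_product, Finset.mem_range] at hq
    exact ⟨y, hq.1, c, hq.2, rfl⟩
  · rintro ⟨y, hy, c, hc, rfl⟩
    exact ⟨(y, c), Finset.mem_product.mpr ⟨hy, Finset.mem_range.mpr hc⟩, rfl⟩

lemma E_card {B : ℝ} {w : ℕ} (hw : (w : ℝ) ≤ B) (i : ℕ) : (E B w i).card = w ^ i := by
  have hB0 : 0 ≤ B := le_trans (by positivity) hw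
  induction i with
  | zero => rw [E_zero, Finset.card_singleton, pow_zero]
  | succ i ih =>
    change ((E B w i ×ˢ Finset.range w).image (fun q : ℤ × ℕ => ⌊B * q.1⌋ + q.2)).card = _
    have key : ∀ x y : ℤ, x < y → ⌊B * x⌋ + (w : ℤ) ≤ ⌊B * y⌋ := by
      intro x y hxy
      apply Int.le_floor.mpr
      push_cast
      have h1 := Int.floor_le (B * x)
      have h2 : (x : ℝ) + 1 ≤ y := by exact_mod_cast hxy
      have h3 := mul_le_mul_of_nonneg_left h2 hB0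
      linarith
    rw [Finset.card_image_of_injOn, Finset.card_product, Finset.card_range, ih, pow_succ]
    rintro ⟨x, c⟩ hq ⟨y, d⟩ hq' h
    simp only [Finset.coe_product, Set.mem_prod, Finset.mem_coe, Finset.mem_range] at hq hq' h
    have hc := hq.2
    have hd := hq'.2
    rcases lt_trichotomy x y with hxy | hxy | hxy
    · have := key x y hxy
      omega
    · subst hxy
      have : c = d := by omega
      rw [this]
    · have := key y x hxy
      omega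

lemma E_bound {B : ℝ} {w A : ℕ} (hw : (w : ℝ) ≤ B) (hA : B ≤ (A : ℝ)) (i : ℕ) :
    ∀ x ∈ E B w i, 0 ≤ x ∧ x < (A : ℤ) ^ i := by
  have hB0 : 0 ≤ B := le_trans (by positivity) hw
  induction i with
  | zero =>
    intro x hx
    rw [E_zero, Finset.mem_singleton] at hx
    rw [hx, pow_zero]
    omega
  | succ i ih =>
    intro x hx
    obtain ⟨y, hy, c, hc, rfl⟩ := mem_E_succ.mp hx
    obtain ⟨h0, h1⟩ := ih y hy
    have hyr : (0 : ℝ) ≤ y := by exact_mod_cast h0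
    have hwA : w ≤ A := by exact_mod_cast hw.trans hA
    constructor
    · have : 0 ≤ ⌊B * y⌋ := Int.floor_nonneg.mpr (mul_nonneg hB0 hyr)
      omega
    · have h2 : ⌊B * y⌋ ≤ A * y := by
        have e : ((A : ℤ) * y) = ⌊(((A : ℤ) * y : ℤ) : ℝ)⌋ := (Int.floor_intCast _).symm
        rw [e]
        apply Int.floor_le_floor
        push_cast
        exact mul_le_mul_of_nonneg_right hA hyr
      have h3 : (A : ℤ) * y ≤ A * (A ^ i - 1) :=
        mul_le_mul_of_nonneg_left (by omega) (by positivity)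
      have h4 : (A : ℤ) ^ (i + 1) = A * A ^ i := by rw [pow_succ]; ring
      have hc' : (c : ℤ) + 1 ≤ w := by exact_mod_cast hc
      have hwA' : (w : ℤ) ≤ A := by exact_mod_cast hwA
      rw [h4]
      linarith [mul_sub (A : ℤ) (A ^ i) 1, mul_one (A : ℤ)]

/-- number of residues modulo `a ^ T` -/
noncomputable def nres (a : ℕ) (S : Finset ℤ) (T : ℕ) : ℕ := (S.image (fun x => x % (a : ℤ) ^ T)).card

lemma nres_step {a p c : ℕ} (hp : 0 < p) (hc : 0 < c) (hac : a = p * c) {S : Finset ℤ} {T : ℕ}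
    (h : ∀ x ∈ S, ∀ y ∈ S, (a : ℤ) ^ T ∣ x - y → (a : ℤ) ^ T * p ∣ x - y) :
    nres a S (T + 1) ≤ c * nres a S T := by
  classical
  have ha : 0 < a := by rw [hac]; positivity
  have haT : (0 : ℤ) < (a : ℤ) ^ T := by positivity
  have haT1 : (0 : ℤ) < (a : ℤ) ^ (T + 1) := by positivity
  have hpz : (0 : ℤ) < p := by exact_mod_cast hp
  have hcz : (0 : ℤ) < c := by exact_mod_cast hc
  have hdvd : (a : ℤ) ^ T ∣ (a : ℤ) ^ (T + 1) := ⟨a, by rw [pow_succ]⟩
  have e1 : (a : ℤ) ^ (T + 1) = (a : ℤ) ^ T * p * c := by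
    rw [pow_succ]
    have : (a : ℤ) = p * c := by exact_mod_cast hac
    rw [mul_assoc, ← this]
  have himg : (S.image (fun x => x % (a : ℤ) ^ (T + 1))).image (fun x => x % (a : ℤ) ^ T)
      = S.image (fun x => x % (a : ℤ) ^ T) := by
    rw [Finset.image_image]
    apply Finset.image_congr
    intro x _
    exact Int.emod_emod_of_dvd x hdvd
  have hmain := Finset.card_le_mul_card_image (f := fun x : ℤ => x % (a : ℤ) ^ T)
    (S.image (fun x => x % (a : ℤ) ^ (T + 1))) c ?_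
  · rw [himg] at hmain
    exact hmain
  · intro r _
    have hinj : Set.InjOn (fun x : ℤ => (x / ((a : ℤ) ^ T * p)).toNat)
        (((S.image (fun x => x % (a : ℤ) ^ (T + 1))).filter
          (fun x => x % (a : ℤ) ^ T = r) : Finset ℤ) : Set ℤ) := by
      intro x hx y hy hxy
      rw [Finset.mem_coe, Finset.mem_filter, Finset.mem_image] at hx hy
      obtain ⟨⟨x', hx', rfl⟩, hxr⟩ := hx
      obtain ⟨⟨y', hy', rfl⟩, hyr⟩ := hy
      rw [Int.emod_emod_of_dvd _ hdvd] at hxr hyr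
      have h1 : (a : ℤ) ^ T ∣ x' - y' := by
        apply Int.dvd_of_emod_eq_zero
        exact Int.emod_eq_emod_iff_emod_sub_eq_zero.mp (hxr.trans hyr.symm)
      have h2 := h x' hx' y' hy' h1
      set x1 : ℤ := x' % (a : ℤ) ^ (T + 1) with hx1
      set y1 : ℤ := y' % (a : ℤ) ^ (T + 1) with hy1
      have hx0 : 0 ≤ x1 := Int.emod_nonneg _ haT1.ne'
      have hy0 : 0 ≤ y1 := Int.emod_nonneg _ haT1.ne'
      have hq : (0 : ℤ) < (a : ℤ) ^ T * p := by positivity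
      have h3 : (a : ℤ) ^ T * p ∣ x1 - y1 := by
        have e2 : x1 - y1 = (x' - y') - (a : ℤ) ^ T * p * (c * (x' / (a : ℤ) ^ (T + 1))
            - c * (y' / (a : ℤ) ^ (T + 1))) := by
          have f1 := Int.emod_add_mul_ediv x' ((a : ℤ) ^ (T + 1))
          have f2 := Int.emod_add_mul_ediv y' ((a : ℤ) ^ (T + 1))
          rw [← hx1] at f1
          rw [← hy1] at f2
          have g1 : x1 = x' - (a : ℤ) ^ T * p * c * (x' / (a : ℤ) ^ (T + 1)) := by
            rw [← e1]; linarith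
          have g2 : y1 = y' - (a : ℤ) ^ T * p * c * (y' / (a : ℤ) ^ (T + 1)) := by
            rw [← e1]; linarith
          rw [g1, g2]; ring
        rw [e2]
        exact dvd_sub h2 (dvd_mul_right _ _)
      have h4 : x1 % ((a : ℤ) ^ T * p) = y1 % ((a : ℤ) ^ T * p) :=
        Int.emod_eq_emod_iff_emod_sub_eq_zero.mpr (Int.emod_eq_zero_of_dvd h3)
      have hdx : 0 ≤ x1 / ((a : ℤ) ^ T * p) := Int.ediv_nonneg hx0 hq.le
      have hdy : 0 ≤ y1 / ((a : ℤ) ^ T * p) := Int.ediv_nonneg hy0 hq.le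
      have h5 : x1 / ((a : ℤ) ^ T * p) = y1 / ((a : ℤ) ^ T * p) := by
        have h6 : (x1 / ((a : ℤ) ^ T * p)).toNat = (y1 / ((a : ℤ) ^ T * p)).toNat := hxy
        omega
      have f1 := Int.emod_add_mul_ediv x1 ((a : ℤ) ^ T * p)
      have f2 := Int.emod_add_mul_ediv y1 ((a : ℤ) ^ T * p)
      rw [← f1, ← f2, h4, h5]
    have hmaps : ∀ x ∈ (S.image (fun x => x % (a : ℤ) ^ (T + 1))).filter
        (fun x => x % (a : ℤ) ^ T = r), (x / ((a : ℤ) ^ T * p)).toNat ∈ Finset.range c := by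
      intro x hx
      rw [Finset.mem_filter, Finset.mem_image] at hx
      obtain ⟨⟨x', hx', rfl⟩, _⟩ := hx
      have hx0 : 0 ≤ x' % (a : ℤ) ^ (T + 1) := Int.emod_nonneg _ haT1.ne'
      have hx1 : x' % (a : ℤ) ^ (T + 1) < (a : ℤ) ^ (T + 1) := Int.emod_lt_of_pos _ haT1
      have hq : (0 : ℤ) < (a : ℤ) ^ T * p := by positivity
      have h7 : x' % (a : ℤ) ^ (T + 1) / ((a : ℤ) ^ T * p) < c := by
        apply Int.ediv_lt_of_lt_mul hq
        have e3 : (c : ℤ) * ((a : ℤ) ^ T * p) = (a : ℤ) ^ (T + 1) := by rw [e1]; ring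
        rw [e3]
        exact hx1
      have h8 : 0 ≤ x' % (a : ℤ) ^ (T + 1) / ((a : ℤ) ^ T * p) := Int.ediv_nonneg hx0 hq.le
      rw [Finset.mem_range]
      omega
    have := Finset.card_le_card_of_injOn _ hmaps hinj
    rw [Finset.card_range] at this
    exact this

lemma nres_le_pow {a : ℕ} (ha : 0 < a) (S : Finset ℤ) (T : ℕ) : nres a S T ≤ a ^ T := by
  classical
  have haT : (0 : ℤ) < (a : ℤ) ^ T := by positivity
  have hmaps : ∀ x ∈ S.image (fun x => x % (a : ℤ) ^ T), x.toNat ∈ Finset.range (a ^ T) := by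
    intro x hx
    rw [Finset.mem_image] at hx
    obtain ⟨x', _, rfl⟩ := hx
    have h1 := Int.emod_nonneg x' haT.ne'
    have h2 := Int.emod_lt_of_pos x' haT
    rw [Finset.mem_range]
    have h3 : ((x' % (a : ℤ) ^ T).toNat : ℤ) < ((a ^ T : ℕ) : ℤ) := by
      rw [Int.toNat_of_nonneg h1]
      push_cast
      exact h2
    exact_mod_cast h3
  have hinj : Set.InjOn (fun x : ℤ => x.toNat)
      ((S.image (fun x => x % (a : ℤ) ^ T) : Finset ℤ) : Set ℤ) := by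
    intro x hx y hy hxy
    rw [Finset.mem_coe, Finset.mem_image] at hx hy
    obtain ⟨x', _, rfl⟩ := hx
    obtain ⟨y', _, rfl⟩ := hy
    have h1 := Int.emod_nonneg x' haT.ne'
    have h2 := Int.emod_nonneg y' haT.ne'
    have h3 : (x' % (a : ℤ) ^ T).toNat = (y' % (a : ℤ) ^ T).toNat := hxy
    rw [← Int.toNat_of_nonneg h1, ← Int.toNat_of_nonneg h2, h3]
  have := Finset.card_le_card_of_injOn _ hmaps hinj
  rw [Finset.card_range] at this
  exact this

/-- differences of exact order: for a prime `p ∣ a` some difference in some `E i` is `a ^ T * s`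
with `T` as large as wanted and `p ∤ s` -/
theorem exists_diff {a w l : ℕ} {B : ℝ} (ha : 0 < a) (hl : 0 < l) (hw : (w : ℝ) ≤ B)
    (hB : B ≤ (a : ℝ) ^ l) (hwl : a ^ l < w * 2 ^ l) {p : ℕ} (hp : p.Prime) (hpa : p ∣ a) (T0 : ℕ) :
    ∃ (i T : ℕ) (x y s : ℤ), x ∈ E B w (i + 1) ∧ y ∈ E B w (i + 1) ∧ T0 ≤ T ∧
      x - y = (a : ℤ) ^ T * s ∧ ¬ (p : ℤ) ∣ s := by
  obtain ⟨c, hac⟩ := hpa
  have hc : 0 < c := by
    rcases Nat.eq_zero_or_pos c with h | h
    · rw [h, mul_zero] at hac; omega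
    · exact h
  by_contra hcon
  push Not at hcon
  have hstar : ∀ i T, T0 ≤ T → ∀ x ∈ E B w (i + 1), ∀ y ∈ E B w (i + 1),
      (a : ℤ) ^ T ∣ x - y → (a : ℤ) ^ T * p ∣ x - y := by
    intro i T hT x hx y hy hd
    obtain ⟨s, hs⟩ := hd
    obtain ⟨s', hs'⟩ := hcon i T x y s hx hy hT hs
    exact ⟨s', by rw [hs, hs']; ring⟩
  have hgrow : ∀ i k, nres a (E B w (i + 1)) (T0 + k) ≤ a ^ T0 * c ^ k := by
    intro i k
    induction k with
    | zero => rw [add_zero, pow_zero, mul_one]; exact nres_le_pow ha _ _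
    | succ k ih =>
      have h1 := nres_step hp.pos hc hac (T := T0 + k) (hstar i (T0 + k) (by omega))
      rw [← add_assoc]
      calc nres a (E B w (i + 1)) (T0 + k + 1) ≤ c * nres a (E B w (i + 1)) (T0 + k) := h1
        _ ≤ c * (a ^ T0 * c ^ k) := Nat.mul_le_mul_left _ ih
        _ = a ^ T0 * c ^ (k + 1) := by rw [pow_succ]; ring
  have hfull : ∀ i, nres a (E B w (i + 1)) (l * (i + 1)) = w ^ (i + 1) := by
    intro i
    unfold nres
    rw [Finset.card_image_of_injOn, E_card hw]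
    intro x hx y hy hxy
    have hb := E_bound (A := a ^ l) hw (by push_cast; exact hB) (i + 1)
    obtain ⟨hx0, hx1⟩ := hb x hx
    obtain ⟨hy0, hy1⟩ := hb y hy
    have e : (((a ^ l : ℕ) : ℤ)) ^ (i + 1) = (a : ℤ) ^ (l * (i + 1)) := by
      push_cast
      rw [← pow_mul]
    rw [e] at hx1 hy1
    have h1 : x % (a : ℤ) ^ (l * (i + 1)) = y % (a : ℤ) ^ (l * (i + 1)) := hxy
    rwa [Int.emod_eq_of_lt hx0 hx1, Int.emod_eq_of_lt hy0 hy1] at h1
  -- the contradiction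
  have hineq : ∀ i, T0 ≤ i → (w * 2 ^ l) ^ (i + 1) ≤ a ^ T0 * (a ^ l) ^ (i + 1) := by
    intro i hi
    have hle : T0 ≤ l * (i + 1) := by nlinarith
    obtain ⟨k, hk⟩ := Nat.exists_eq_add_of_le hle
    have h1 := hgrow i k
    rw [← hk, hfull] at h1
    have h2c : 2 * c ≤ a := by rw [hac]; exact Nat.mul_le_mul_right _ hp.two_le
    have h2 : (2 ^ l) ^ (i + 1) * c ^ (l * (i + 1)) ≤ (a ^ l) ^ (i + 1) := by
      rw [← pow_mul, ← pow_mul, ← mul_pow]
      exact Nat.pow_le_pow_left h2c _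
    have h3 : c ^ k ≤ c ^ (l * (i + 1)) := Nat.pow_le_pow_right hc (by omega)
    calc (w * 2 ^ l) ^ (i + 1) = w ^ (i + 1) * (2 ^ l) ^ (i + 1) := mul_pow _ _ _
      _ ≤ (a ^ T0 * c ^ k) * (2 ^ l) ^ (i + 1) := Nat.mul_le_mul_right _ h1
      _ ≤ (a ^ T0 * c ^ (l * (i + 1))) * (2 ^ l) ^ (i + 1) :=
          Nat.mul_le_mul_right _ (Nat.mul_le_mul_left _ h3)
      _ = a ^ T0 * ((2 ^ l) ^ (i + 1) * c ^ (l * (i + 1))) := by ring
      _ ≤ a ^ T0 * (a ^ l) ^ (i + 1) := Nat.mul_le_mul_left _ h2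
  have hal : (0 : ℝ) < ((a ^ l : ℕ) : ℝ) := by
    have : 0 < a ^ l := by positivity
    exact_mod_cast this
  have hr : 1 < ((w * 2 ^ l : ℕ) : ℝ) / ((a ^ l : ℕ) : ℝ) := by
    rw [one_lt_div hal]
    exact_mod_cast hwl
  obtain ⟨n, hn⟩ := pow_unbounded_of_one_lt (((a ^ T0 : ℕ) : ℝ)) hr
  set i : ℕ := max n T0 with hi
  have h1 := hineq i (le_max_right _ _)
  have h2 : (((w * 2 ^ l : ℕ) : ℝ) / ((a ^ l : ℕ) : ℝ)) ^ n
      ≤ (((w * 2 ^ l : ℕ) : ℝ) / ((a ^ l : ℕ) : ℝ)) ^ (i + 1) :=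
    pow_le_pow_right₀ hr.le (by have := le_max_left n T0; omega)
  have h3 : (((w * 2 ^ l : ℕ) : ℝ)) ^ (i + 1) ≤ ((a ^ T0 : ℕ) : ℝ) * (((a ^ l : ℕ) : ℝ)) ^ (i + 1) := by
    exact_mod_cast h1
  have h5 := hn.trans_le h2
  rw [div_pow] at h5
  have h4 : (((w * 2 ^ l : ℕ) : ℝ)) ^ (i + 1) / (((a ^ l : ℕ) : ℝ)) ^ (i + 1) ≤ ((a ^ T0 : ℕ) : ℝ) := by
    rw [div_le_iff₀ (by positivity)]
    exact h3
  linarith

end Pool.Agent.Helper96.ML
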