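import Pool.Agent.Helper96.ML.Peak

/-! # The parameters -/

namespace Pool.Agent.Helper96.ML

open Filter Topology

/-- everything that is needed about the fixed cell -/
structure Par (a b : ℕ) (τ ρ t0 : ℝ) : Prop where
  rho_pos : 0 < ρ
  tau_pos : 0 < τ
  sum_le : τ + ρ ≤ 1 / 8
  rho_le : ρ ≤ 1 / 32
  lt_half : t0 < 1 / 2
  le_t0 : 15 / 32 ≤ t0
  steer : ∀ (J : ℕ) (u r : ℤ), ∃ (n : ℕ) (v : ℤ), G ((a : ℝ) / b) τ ρ t0 n u v ∧
    (a : ℤ) ^ J ∣ v - r

theorem exists_par {a b : ℕ} (ha : 2 ≤ a) (hcop : a.Coprime b) (hab : a < b) :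
    ∃ τ ρ t0 : ℝ, Par a b τ ρ t0 := by
  have ha0 : 0 < a := by omega
  have hb0 : 0 < b := by omega
  have ha' : (0 : ℝ) < a := by exact_mod_cast ha0
  have hb' : (0 : ℝ) < b := by exact_mod_cast hb0
  have hab' : (a : ℝ) < b := by exact_mod_cast hab
  have ha2 : (2 : ℝ) ≤ a := by exact_mod_cast ha
  set γ : ℝ := (a : ℝ) / b with hγ
  set β : ℝ := (b : ℝ) / a with hβ
  have hγ0 : 0 < γ := by positivity
  have hγ1 : γ < 1 := by rw [hγ, div_lt_one hb']; exact hab'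
  have hβ1 : 1 < β := by rw [hβ, one_lt_div ha']; exact hab'
  -- `j0`
  have h1 : Tendsto (fun n : ℕ => γ ^ n) atTop (𝓝 0) :=
    tendsto_pow_atTop_nhds_zero_of_lt_one hγ0.le hγ1
  have h2 : ∀ᶠ n : ℕ in atTop, γ ^ n < (1 - γ) / 16 :=
    h1.eventually_lt_const (by linarith)
  obtain ⟨j1, hj1⟩ := eventually_atTop.mp h2
  set j0 : ℕ := j1 + 2 with hj0def
  have hj0 : γ ^ (j0 + 1) / (1 - γ) ≤ 1 / 16 := by
    rw [div_le_iff₀ (by linarith)]
    have := hj1 (j0 + 1) (by omega)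
    linarith
  have hA4 : (4 : ℝ) ≤ (a : ℝ) ^ j0 := by
    have e1 : (2 : ℝ) ^ 2 ≤ (a : ℝ) ^ 2 := pow_le_pow_left₀ (by norm_num) ha2 2
    have e2 : (a : ℝ) ^ 2 ≤ (a : ℝ) ^ j0 := pow_le_pow_right₀ (by linarith) (by omega)
    linarith
  set τ : ℝ := 1 / (4 * (a : ℝ) ^ j0) with hτ
  set ρ : ℝ := τ / 2 with hρ
  have hτ0 : 0 < τ := by positivity
  have hρ0 : 0 < ρ := by positivity
  have hτ16 : τ ≤ 1 / 16 := by
    rw [hτ]
    apply one_div_le_one_div_of_le (by norm_num)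
    linarith
  -- the size of the block
  obtain ⟨l0, hl0⟩ := pow_unbounded_of_one_lt (4 * (a : ℝ) / ρ) (by norm_num : (1 : ℝ) < 2)
  have h3 : ∀ᶠ n : ℕ in atTop, (n : ℝ) ^ 1 / β ^ n < ρ / 20 :=
    (tendsto_pow_const_div_const_pow_of_one_lt 1 hβ1).eventually_lt_const (by positivity)
  have h4 : ∀ᶠ n : ℕ in atTop, (n : ℝ) ^ 0 / β ^ n < ρ / 20 :=
    (tendsto_pow_const_div_const_pow_of_one_lt 0 hβ1).eventually_lt_const (by positivity)
  have h5 : ∀ᶠ n : ℕ in atTop, (a : ℝ) ^ l0 < β ^ n :=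
    (tendsto_pow_atTop_atTop_of_one_lt hβ1).eventually_gt_atTop _
  obtain ⟨n1, hn1⟩ := eventually_atTop.mp ((h3.and h4).and h5)
  set n0 : ℕ := n1 + 1 with hn0def
  have hbig : ∀ m, n0 ≤ m → 3 * (m : ℝ) + 3 ≤ ρ * β ^ m ∧ 20 < ρ * β ^ m := by
    intro m hm
    obtain ⟨⟨e1, e2⟩, _⟩ := hn1 m (by omega)
    have hβm : 0 < β ^ m := by positivity
    rw [div_lt_iff₀ hβm, pow_one] at e1
    rw [div_lt_iff₀ hβm, pow_zero] at e2
    constructor
    · nlinarith
    · nlinarith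
  set B : ℝ := β ^ n0 with hB
  have hB0 : 0 < B := by positivity
  have hBl0 : (a : ℝ) ^ l0 < B := (hn1 n0 (by omega)).2
  have hρB : 20 < ρ * B := (hbig n0 le_rfl).2
  -- the number of choices
  set w : ℕ := ⌊ρ * B / 2⌋₊ with hw
  have hw1 : (w : ℝ) ≤ ρ * B / 2 := Nat.floor_le (by positivity)
  have hw2 : ρ * B / 4 ≤ w := by
    have := Nat.lt_floor_add_one (ρ * B / 2)
    rw [← hw] at this
    linarith
  have hwB : (w : ℝ) ≤ B := by
    have : ρ * B / 2 ≤ 1 * B := by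
      have h6 : ρ / 2 ≤ 1 := by linarith
      have h7 := mul_le_mul_of_nonneg_right h6 hB0.le
      linarith
    linarith
  -- the number of digits
  have hexl : ∃ l : ℕ, B ≤ (a : ℝ) ^ l := by
    obtain ⟨l, hl⟩ := pow_unbounded_of_one_lt B (by linarith : (1 : ℝ) < a)
    exact ⟨l, hl.le⟩
  classical
  set l : ℕ := Nat.find hexl with hldef
  have hBl : B ≤ (a : ℝ) ^ l := Nat.find_spec hexl
  have hl0l : l0 < l := by
    by_contra hle
    push Not at hle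
    have : (a : ℝ) ^ l ≤ (a : ℝ) ^ l0 := pow_le_pow_right₀ (by linarith) hle
    linarith
  have hlpos : 0 < l := by omega
  have hBl1 : (a : ℝ) ^ (l - 1) < B := by
    have := Nat.find_min hexl (m := l - 1) (by omega)
    push Not at this
    exact this
  have hwl : a ^ l < w * 2 ^ l := by
    have e1 : (a : ℝ) ^ l = a * (a : ℝ) ^ (l - 1) := by
      rw [← pow_succ']
      congr 1
      omega
    have e2 : (2 : ℝ) ^ l0 ≤ (2 : ℝ) ^ l := pow_le_pow_right₀ (by norm_num) hl0l.le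
    have e3 : (a : ℝ) ^ l < a * B := by
      rw [e1]
      exact mul_lt_mul_of_pos_left hBl1 ha'
    have e4 : (a : ℝ) * B ≤ (ρ * B / 4) * 2 ^ l := by
      have h8 : 4 * (a : ℝ) / ρ ≤ 2 ^ l := hl0.le.trans e2
      rw [div_le_iff₀ hρ0] at h8
      have h9 := mul_le_mul_of_nonneg_right h8 (by positivity : (0 : ℝ) ≤ B / 4)
      have h10 : 4 * (a : ℝ) * (B / 4) = a * B := by ring
      have h11 : 2 ^ l * ρ * (B / 4) = (ρ * B / 4) * 2 ^ l := by ring
      linarith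
    have e5 : (ρ * B / 4) * 2 ^ l ≤ w * 2 ^ l := mul_le_mul_of_nonneg_right hw2 (by positivity)
    have e6 : ((a ^ l : ℕ) : ℝ) < ((w * 2 ^ l : ℕ) : ℝ) := by
      push_cast
      linarith
    exact_mod_cast e6
  set t0 : ℝ := 1 / 2 - ρ * γ ^ (2 * n0) with ht0
  have hpow : γ ^ (2 * n0) ≤ 1 := pow_le_one₀ hγ0.le hγ1.le
  refine ⟨τ, ρ, t0, hρ0, hτ0, by linarith, by linarith, ?_, ?_, ?_⟩
  · have : 0 < ρ * γ ^ (2 * n0) := by positivity
    linarith
  · have : ρ * γ ^ (2 * n0) ≤ ρ * 1 := mul_le_mul_of_nonneg_left hpow hρ0.le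
    linarith
  · apply steer ha0 hcop hb0 (B := B) (n0 := n0) (w := w) (l := l) (by omega) hlpos hwB hBl hwl
    · intro k k' hk u
      apply pair_good (W := (w : ℝ)) ha0 hab (by positivity) hτ hρ hj0 (by omega) _ u k k' hk
      have := (hbig n0 le_rfl).1
      have h6 : ρ * (B - 1) = ρ * B - ρ := by ring
      rw [h6]
      linarith
    · intro m hm hm2 u
      obtain ⟨v, hv, _⟩ := pair_good (W := 0) ha0 hab le_rfl hτ hρ hj0 hm2 (by
        have := (hbig m hm).1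
        have h6 : ρ * (β ^ m - 1) = ρ * β ^ m - ρ := by ring
        rw [h6]
        have hm0 : (0 : ℝ) ≤ m := by positivity
        linarith) u 0 0 (by
        push_cast
        rw [mul_zero, sub_zero, abs_zero])
      exact ⟨v, hv⟩

end Pool.Agent.Helper96.ML
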