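import Pool.Agent.Helper96.ML.Steer

/-! # Target lemma: with free `a`-adic digits every interval reaches every point -/

namespace Pool.Agent.Helper96.ML

/-- an orbit of `n` steps from `x` to `y` with digits `s`, intermediate points of size `≤ κ` -/
def Ch (a b : ℕ) (κ : ℝ) : ℕ → ℝ → ℝ → Prop
  | 0, x, y => x = y
  | n + 1, x, y => ∃ s : ℤ, (n = 0 ∨ |(b : ℝ) / a * x - s / a| ≤ κ) ∧
      Ch a b κ n ((b : ℝ) / a * x - s / a) y

lemma Ch_zero {a b : ℕ} {κ : ℝ} {x y : ℝ} : Ch a b κ 0 x y ↔ x = y := Iff.rfl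

lemma Ch_succ {a b : ℕ} {κ : ℝ} {n : ℕ} {x y : ℝ} : Ch a b κ (n + 1) x y ↔
    ∃ s : ℤ, (n = 0 ∨ |(b : ℝ) / a * x - s / a| ≤ κ) ∧
      Ch a b κ n ((b : ℝ) / a * x - s / a) y := Iff.rfl

/-- nearest digit -/
lemma near_digit {a : ℕ} (ha : 0 < a) (z : ℝ) : ∃ s : ℤ, |z - s / a| ≤ 1 / (2 * a) := by
  have ha' : (0 : ℝ) < a := by exact_mod_cast ha
  refine ⟨round (a * z), ?_⟩
  have h := abs_sub_round ((a : ℝ) * z)
  have e : z - (round ((a : ℝ) * z) : ℝ) / a = (1 / a) * (a * z - round ((a : ℝ) * z)) := by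
    field_simp
  rw [e, abs_mul, abs_of_pos (by positivity)]
  have h2 : (1 / (a : ℝ)) * |(a : ℝ) * z - round ((a : ℝ) * z)| ≤ (1 / a) * (1 / 2) :=
    mul_le_mul_of_nonneg_left h (by positivity)
  have e2 : (1 / (a : ℝ)) * (1 / 2) = 1 / (2 * a) := by field_simp
  linarith

theorem target {a b : ℕ} (ha : 0 < a) (hab : a < b) (y : ℝ) : ∀ (N : ℕ) (m h : ℝ),
    ((a : ℝ) / b) ^ N / (2 * b) ≤ h →
    ∃ x : ℝ, |x - m| ≤ h ∧ Ch a b (1 / (2 * a) + 1 / (2 * b)) (N + 1) x y := by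
  have ha' : (0 : ℝ) < a := by exact_mod_cast ha
  have hb' : (0 : ℝ) < b := by
    have : 0 < b := by omega
    exact_mod_cast this
  have hab' : (a : ℝ) < b := by exact_mod_cast hab
  set γ : ℝ := (a : ℝ) / b with hγ
  set β : ℝ := (b : ℝ) / a with hβ
  have hγ0 : 0 < γ := by positivity
  have hγ1 : γ < 1 := by rw [hγ, div_lt_one hb']; exact hab'
  have hγβ : γ * β = 1 := by rw [hγ, hβ]; field_simp
  have hγa : γ * (1 / (2 * a)) = 1 / (2 * b) := by rw [hγ]; field_simp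
  intro N
  induction N with
  | zero =>
    intro m h hh
    obtain ⟨s, hs⟩ := near_digit ha (β * m - y)
    rw [pow_zero] at hh
    refine ⟨m + γ * (y - (β * m - s / a)), ?_, ?_⟩
    · have e : m + γ * (y - (β * m - s / a)) - m = - (γ * (β * m - y - s / a)) := by ring
      rw [e, abs_neg, abs_mul, abs_of_pos hγ0]
      have := mul_le_mul_of_nonneg_left hs hγ0.le
      linarith
    · rw [Ch_succ]
      refine ⟨s, Or.inl rfl, ?_⟩
      rw [Ch_zero]
      have e : β * (m + γ * (y - (β * m - s / a))) - s / a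
          = (β * m - s / a) + (γ * β) * (y - (β * m - s / a)) := by ring
      change β * (m + γ * (y - (β * m - s / a))) - s / a = y
      rw [e, hγβ]
      ring
  | succ N ih =>
    intro m h hh
    obtain ⟨s, hs⟩ := near_digit ha (β * m)
    obtain ⟨x1, hx1, hc⟩ := ih (β * m - s / a) (γ ^ N / (2 * b)) le_rfl
    have hpN : γ ^ N ≤ 1 := pow_le_one₀ hγ0.le hγ1.le
    refine ⟨γ * (x1 + s / a), ?_, ?_⟩
    · have e : γ * (x1 + s / a) - m = γ * (x1 - (β * m - s / a)) := by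
        linear_combination m * hγβ
      rw [e, abs_mul, abs_of_pos hγ0]
      have h1 := mul_le_mul_of_nonneg_left hx1 hγ0.le
      have e2 : γ * (γ ^ N / (2 * b)) = γ ^ (N + 1) / (2 * b) := by rw [pow_succ]; ring
      linarith
    · rw [Ch_succ]
      have e : β * (γ * (x1 + s / a)) - s / a = x1 := by
        linear_combination (x1 + (s : ℝ) / a) * hγβ
      refine ⟨s, Or.inr ?_, ?_⟩
      · change |β * (γ * (x1 + s / a)) - s / a| ≤ 1 / (2 * a) + 1 / (2 * b)
        rw [e]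
        have h1 : |x1| ≤ |β * m - s / a| + |x1 - (β * m - s / a)| := by
          have := abs_add_le (β * m - s / a) (x1 - (β * m - s / a))
          rwa [add_sub_cancel] at this
        have h2 : γ ^ N / (2 * b) ≤ 1 / (2 * b) := by
          apply div_le_div_of_nonneg_right hpN (by positivity)
        linarith
      · change Ch a b (1 / (2 * a) + 1 / (2 * b)) (N + 1) (β * (γ * (x1 + s / a)) - s / a) y
        rw [e]
        exact hc

/-- lifting an orbit with digits to integers in a residue class -/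
theorem lift {a b : ℕ} (ha : 0 < a) (hcop : a.Coprime b) (hb : 0 < b) {κ : ℝ} (M : ℕ) (r' : ℤ) :
    ∀ (n : ℕ) (x y : ℝ), Ch a b κ n x y → ∃ r : ℤ, ∀ u : ℤ, (a : ℤ) ^ (n + M) ∣ u - r →
      ∃ v : ℤ, (a : ℤ) ^ M ∣ v - r' ∧ ((a : ℝ) / b) ^ n * (v + y) = u + x ∧
        ∀ j, 0 < j → j < n → ∃ w : ℤ, |((a : ℝ) / b) ^ j * (v + y) - w| ≤ κ := by
  have ha' : (0 : ℝ) < a := by exact_mod_cast ha
  have hb' : (0 : ℝ) < b := by exact_mod_cast hb
  intro n
  induction n with
  | zero =>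
    intro x y h
    rw [Ch_zero] at h
    refine ⟨r', fun u hu => ⟨u, ?_, ?_, ?_⟩⟩
    · rwa [zero_add] at hu
    · rw [pow_zero, one_mul, h]
    · intro j h0 h1
      omega
  | succ n ih =>
    intro x y h
    rw [Ch_succ] at h
    obtain ⟨s, hs, hc⟩ := h
    obtain ⟨r1, hr1⟩ := ih _ _ hc
    -- solve `b r = a r1 - s` modulo `a ^ (n + 1 + M)`
    have hco : IsCoprime ((b : ℤ)) ((a : ℤ) ^ (n + 1 + M)) := by
      apply IsCoprime.pow_right
      exact (Nat.isCoprime_iff_coprime.mpr hcop).symm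
    obtain ⟨p, q, hpq⟩ := hco
    refine ⟨p * (a * r1 - s), fun u hu => ?_⟩
    have hdiv : (a : ℤ) ^ (n + 1 + M) ∣ b * u + s - a * r1 := by
      obtain ⟨c, hc⟩ := hu
      refine ⟨b * c - q * (a * r1 - s), ?_⟩
      linear_combination (b : ℤ) * hc + ((a : ℤ) * r1 - s) * hpq
    obtain ⟨c, hc'⟩ := hdiv
    have e1 : (a : ℤ) ^ (n + 1 + M) = a * a ^ (n + M) := by
      rw [show n + 1 + M = (n + M) + 1 by ring, pow_succ]; ring
    have hu1 : (a : ℤ) * (r1 + a ^ (n + M) * c) = b * u + s := by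
      rw [e1] at hc'
      linear_combination -hc'
    obtain ⟨v, hv1, hv2, hv3⟩ := hr1 (r1 + a ^ (n + M) * c) ⟨c, by ring⟩
    have hu1r : (a : ℝ) * ((r1 + a ^ (n + M) * c : ℤ) : ℝ) = b * u + s := by
      exact_mod_cast hu1
    refine ⟨v, hv1, ?_, ?_⟩
    · rw [pow_succ, mul_comm (((a : ℝ) / b) ^ n), mul_assoc, hv2]
      have : ((a : ℝ) / b) * (((r1 + a ^ (n + M) * c : ℤ) : ℝ) + ((b : ℝ) / a * x - s / a))
          = (1 / b) * (a * ((r1 + a ^ (n + M) * c : ℤ) : ℝ)) + (x - s / b) := by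
        field_simp
      rw [this, hu1r]
      field_simp
      ring
    · intro j h0 h1
      rcases Nat.lt_or_ge j n with hj | hj
      · exact hv3 j h0 hj
      · have hjn : j = n := by omega
        subst hjn
        refine ⟨r1 + a ^ (j + M) * c, ?_⟩
        rw [hv2]
        rcases hs with hs | hs
        · omega
        · have e : ((r1 + a ^ (j + M) * c : ℤ) : ℝ) + ((b : ℝ) / a * x - s / a)
              - ((r1 + a ^ (j + M) * c : ℤ) : ℝ) = (b : ℝ) / a * x - s / a := by ring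
          rw [e]
          exact hs

end Pool.Agent.Helper96.ML
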