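import Pool.Agent.Helper96.ML.Count
import Pool.Agent.Helper96.ML.Diff

/-! # Steering: every residue class modulo `a ^ J` is reached -/

namespace Pool.Agent.Helper96.ML

def RR (γ τ ρ t : ℝ) (K : ℕ) (k k' : ℤ) : Prop :=
  ∀ u : ℤ, ∃ v : ℤ, G γ τ ρ t K u v ∧ G γ τ ρ t K (u + k) (v + k')

lemma RR_trans {γ τ ρ t : ℝ} (hγ : 0 ≤ γ) {K K' : ℕ} {k k' k'' : ℤ}
    (h1 : RR γ τ ρ t K k k') (h2 : RR γ τ ρ t K' k' k'') : RR γ τ ρ t (K + K') k k'' := by
  intro u
  obtain ⟨v, hv1, hv2⟩ := h1 u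
  obtain ⟨w, hw1, hw2⟩ := h2 v
  exact ⟨w, G_trans hγ hv1 hw1, G_trans hγ hv2 hw2⟩

lemma RR_E {γ τ ρ t B : ℝ} {n0 w : ℕ} (hγ : 0 ≤ γ)
    (hRR : ∀ k k' : ℤ, |(k' : ℝ) - B * k| ≤ w → RR γ τ ρ t n0 k k') (i : ℕ) :
    ∀ x ∈ E B w (i + 1), ∀ y ∈ E B w (i + 1), RR γ τ ρ t ((i + 1) * n0) 0 (x - y) := by
  induction i with
  | zero =>
    intro x hx y hy
    obtain ⟨x0, hx0, c, hc, rfl⟩ := mem_E_succ.mp hx
    obtain ⟨y0, hy0, d, hd, rfl⟩ := mem_E_succ.mp hy
    rw [E_zero, Finset.mem_singleton] at hx0 hy0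
    subst hx0
    subst hy0
    rw [zero_add, one_mul]
    apply hRR
    have hc' : (c : ℝ) + 1 ≤ w := by exact_mod_cast hc
    have hd' : (d : ℝ) + 1 ≤ w := by exact_mod_cast hd
    have hc0 : (0 : ℝ) ≤ c := by positivity
    have hd0 : (0 : ℝ) ≤ d := by positivity
    push_cast
    rw [mul_zero, abs_le]
    constructor <;> linarith
  | succ i ih =>
    intro x hx y hy
    obtain ⟨x0, hx0, c, hc, rfl⟩ := mem_E_succ.mp hx
    obtain ⟨y0, hy0, d, hd, rfl⟩ := mem_E_succ.mp hy
    have h1 := ih x0 hx0 y0 hy0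
    have e : (i + 1 + 1) * n0 = (i + 1) * n0 + n0 := by ring
    rw [e]
    apply RR_trans hγ h1
    apply hRR
    have hc' : (c : ℝ) + 1 ≤ w := by exact_mod_cast hc
    have hd' : (d : ℝ) + 1 ≤ w := by exact_mod_cast hd
    have hc0 : (0 : ℝ) ≤ c := by positivity
    have hd0 : (0 : ℝ) ≤ d := by positivity
    have f1 := Int.floor_le (B * x0)
    have f2 := Int.lt_floor_add_one (B * x0)
    have g1 := Int.floor_le (B * y0)
    have g2 := Int.lt_floor_add_one (B * y0)
    push_cast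
    rw [abs_le]
    constructor <;> nlinarith

/-- a nonempty subset of `ZMod N` stable under translation by `1` is everything -/
lemma all_of_one {N : ℕ} [NeZero N] {X : Set (ZMod N)} (hne : X.Nonempty)
    (hst : ∀ x ∈ X, x + 1 ∈ X) : X = Set.univ := by
  obtain ⟨x0, hx0⟩ := hne
  have h1 : ∀ n : ℕ, x0 + n ∈ X := by
    intro n
    induction n with
    | zero => simpa using hx0
    | succ n ih =>
      have := hst _ ih
      have e : x0 + (n : ZMod N) + 1 = x0 + ((n + 1 : ℕ) : ZMod N) := by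
        push_cast; ring
      rw [e] at this
      exact this
  ext y
  constructor
  · intro _; exact Set.mem_univ y
  · intro _
    have h2 := h1 (y - x0).val
    rw [ZMod.natCast_zmod_val] at h2
    have e : x0 + (y - x0) = y := by ring
    rw [e] at h2
    exact h2

/-- a nonempty subset of `ZMod N` stable, for every prime `p ∣ N`, under translation by some
integer not divisible by `p`, is everything -/
lemma all_of_stable {N : ℕ} [NeZero N] {X : Set (ZMod N)} (hne : X.Nonempty)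
    (hst : ∀ p : ℕ, p.Prime → p ∣ N → ∃ h : ℤ, ¬ (p : ℤ) ∣ h ∧ ∀ x ∈ X, x + (h : ZMod N) ∈ X) :
    X = Set.univ := by
  have hadd : ∀ h h' : ℤ, (∀ x ∈ X, x + (h : ZMod N) ∈ X) → (∀ x ∈ X, x + (h' : ZMod N) ∈ X) →
      ∀ x ∈ X, x + ((h + h' : ℤ) : ZMod N) ∈ X := by
    intro h h' h1 h2 x hx
    have := h2 _ (h1 x hx)
    push_cast
    rwa [add_assoc] at this
  have hmul : ∀ h : ℤ, (∀ x ∈ X, x + (h : ZMod N) ∈ X) → ∀ n : ℕ,
      ∀ x ∈ X, x + (((n : ℤ) * h : ℤ) : ZMod N) ∈ X := by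
    intro h h1 n
    induction n with
    | zero =>
      intro x hx
      push_cast
      rw [zero_mul, add_zero]
      exact hx
    | succ n ih =>
      intro x hx
      have h2 := hadd _ _ ih h1 x hx
      have e : (((n + 1 : ℕ) : ℤ)) * h = (n : ℤ) * h + h := by push_cast; ring
      rw [e]
      exact h2
  let H : AddSubgroup ℤ :=
    { carrier := {h | ∀ x ∈ X, x + (h : ZMod N) ∈ X}
      zero_mem' := by
        intro x hx
        push_cast
        rw [add_zero]
        exact hx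
      add_mem' := fun {h h'} h1 h2 => hadd h h' h1 h2
      neg_mem' := by
        intro h h1 x hx
        have h2 := hmul h h1 (N - 1) x hx
        have hN : 0 < N := Nat.pos_of_ne_zero (NeZero.ne N)
        have e : (((((N - 1 : ℕ) : ℤ)) * h : ℤ) : ZMod N) = ((-h : ℤ) : ZMod N) := by
          have e1 : (((N - 1 : ℕ) : ℤ)) * h = (N : ℤ) * h + -h := by
            rw [Nat.cast_sub hN]; push_cast; ring
          rw [e1]
          push_cast
          rw [ZMod.natCast_self, zero_mul, zero_add]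
        rw [e] at h2
        exact h2 }
  have hH : ∀ h : ℤ, h ∈ H ↔ ∀ x ∈ X, x + (h : ZMod N) ∈ X := fun h => Iff.rfl
  obtain ⟨d, hd⟩ := Int.subgroup_cyclic H
  have hmem : ∀ h : ℤ, h ∈ H → d ∣ h := by
    intro h hh
    rw [hd, AddSubgroup.mem_closure_singleton] at hh
    obtain ⟨n, hn⟩ := hh
    exact ⟨n, by rw [← hn, smul_eq_mul]; ring⟩
  have hNH : (N : ℤ) ∈ H := by
    rw [hH]
    intro x hx
    push_cast
    rw [ZMod.natCast_self, add_zero]
    exact hx
  have hd1 : d.natAbs = 1 := by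
    by_contra hne1
    obtain ⟨p, hp, hpd⟩ := Nat.exists_prime_and_dvd hne1
    have hpd' : (p : ℤ) ∣ d := Int.natCast_dvd.mpr hpd
    have hpN : p ∣ N := by
      have := hpd'.trans (hmem _ hNH)
      exact_mod_cast this
    obtain ⟨h, hh1, hh2⟩ := hst p hp hpN
    exact hh1 (hpd'.trans (hmem h hh2))
  have h1H : (1 : ℤ) ∈ H := by
    rcases Int.natAbs_eq d with h | h
    · rw [hd1] at h
      push_cast at h
      rw [hd, h]
      exact AddSubgroup.subset_closure (Set.mem_singleton _)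
    · rw [hd1] at h
      push_cast at h
      rw [hd, h]
      have := AddSubgroup.neg_mem _ (AddSubgroup.subset_closure (Set.mem_singleton (-1 : ℤ)))
      rwa [neg_neg] at this
  apply all_of_one hne
  intro x hx
  have := (hH 1).mp h1H x hx
  rwa [Int.cast_one] at this

/-- reachable residues -/
def res (γ τ ρ t : ℝ) (N : ℕ) (T : ℕ) (u : ℤ) : Set (ZMod N) :=
  {x | ∃ v : ℤ, G γ τ ρ t T u v ∧ (v : ZMod N) = x}

lemma res_mono {γ τ ρ t : ℝ} (hγ : 0 ≤ γ) {N T m : ℕ} {u u' : ℤ} (h : G γ τ ρ t m u u') :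
    res γ τ ρ t N T u' ⊆ res γ τ ρ t N (m + T) u := by
  rintro x ⟨v, hv, hx⟩
  exact ⟨v, G_trans hγ h hv, hx⟩

theorem steer {a b : ℕ} (ha : 0 < a) (hcop : a.Coprime b) (hb : 0 < b) {τ ρ t B : ℝ} {n0 w l : ℕ}
    (hn0 : 0 < n0) (hl : 0 < l) (hw : (w : ℝ) ≤ B) (hBl : B ≤ (a : ℝ) ^ l)
    (hwl : a ^ l < w * 2 ^ l)
    (hRR : ∀ k k' : ℤ, |(k' : ℝ) - B * k| ≤ w → RR ((a : ℝ) / b) τ ρ t n0 k k')
    (hex : ∀ m, n0 ≤ m → m ≤ 2 * n0 → ∀ u : ℤ, ∃ v : ℤ, G ((a : ℝ) / b) τ ρ t m u v)
    (J : ℕ) (u r : ℤ) : ∃ (n : ℕ) (v : ℤ), G ((a : ℝ) / b) τ ρ t n u v ∧ (a : ℤ) ^ J ∣ v - r := by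
  have hγ : (0 : ℝ) ≤ (a : ℝ) / b := by positivity
  set γ : ℝ := (a : ℝ) / b with hγdef
  have hexall : ∀ m, n0 ≤ m → ∀ u : ℤ, ∃ v : ℤ, G γ τ ρ t m u v := by
    intro m
    induction m using Nat.strong_induction_on with
    | _ m ih =>
      intro hm u
      rcases le_or_gt m (2 * n0) with h | h
      · exact hex m hm h u
      · obtain ⟨v, hv⟩ := ih (m - n0) (by omega) (by omega) u
        obtain ⟨w, hw⟩ := hex n0 le_rfl (by omega) v
        have := G_trans hγ hv hw
        rw [Nat.sub_add_cancel hm] at this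
        exact ⟨w, this⟩
  set N : ℕ := a ^ J with hN
  have hNpos : 0 < N := pow_pos ha J
  have : NeZero N := ⟨hNpos.ne'⟩
  have hgrow : ∀ k : ℕ, k ≤ N → ∃ T0 : ℕ, ∀ T, T0 ≤ T → ∀ u : ℤ,
      k ≤ (res γ τ ρ t N T u).ncard := by
    intro k
    induction k with
    | zero => intro _; exact ⟨0, fun T _ u => Nat.zero_le _⟩
    | succ k ih =>
      intro hk
      obtain ⟨T0, hT0⟩ := ih (by omega)
      -- for every prime `p ∣ a` a difference
      have hdiff : ∀ p : ℕ, ∃ (K T' : ℕ) (s : ℤ), p.Prime → p ∣ a →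
          T0 ≤ T' ∧ RR γ τ ρ t K 0 ((a : ℤ) ^ T' * s) ∧ ¬ (p : ℤ) ∣ s := by
        intro p
        by_cases hp : p.Prime ∧ p ∣ a
        · obtain ⟨i, T', x, y, s, hx, hy, hT', hxy, hs⟩ :=
            exists_diff ha hl hw hBl hwl hp.1 hp.2 T0
          refine ⟨(i + 1) * n0, T', s, fun _ _ => ⟨hT', ?_, hs⟩⟩
          rw [← hxy]
          exact RR_E hγ hRR i x hx y hy
        · refine ⟨0, 0, 0, fun h1 h2 => ?_⟩
          exact absurd ⟨h1, h2⟩ hp
      choose K T' s hKTs using hdiff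
      set T1 : ℕ := ∑ p ∈ a.primeFactors, (K p + T' p) with hT1
      refine ⟨n0 + T1, fun T hT u => ?_⟩
      by_contra hcon
      push Not at hcon
      set X := res γ τ ρ t N T u with hX
      have hfinS : X.Finite := Set.toFinite _
      have hneX : X.Nonempty := by
        obtain ⟨w', hw'⟩ := hexall T (by omega) u
        exact ⟨_, w', hw', rfl⟩
      have hall : X = Set.univ := by
        apply all_of_stable hneX
        intro p hp hpN
        have hpa : p ∣ a := hp.dvd_of_dvd_pow hpN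
        obtain ⟨hT0', hpair, hs⟩ := hKTs p hp hpa
        have hle : K p + T' p ≤ T1 := by
          rw [hT1]
          exact Finset.single_le_sum (f := fun p => K p + T' p) (fun _ _ => Nat.zero_le _)
            (Nat.mem_primeFactors.mpr ⟨hp, hpa, ha.ne'⟩)
        refine ⟨(b : ℤ) ^ T' p * s p, ?_, ?_⟩
        · intro hd
          have hpz : Prime (p : ℤ) := Nat.prime_iff_prime_int.mp hp
          rcases hpz.dvd_or_dvd hd with h | h
          · have h2 : (p : ℤ) ∣ b := hpz.dvd_of_dvd_pow h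
            have h3 : p ∣ b := by exact_mod_cast h2
            have h4 : p ∣ Nat.gcd a b := Nat.dvd_gcd hpa h3
            rw [hcop] at h4
            exact hp.one_lt.ne' (Nat.dvd_one.mp h4)
          · exact hs h
        · obtain ⟨u1, hu1⟩ := hexall (T - (K p + T' p)) (by omega) u
          obtain ⟨v, hv1, hv2⟩ := hpair u1
          rw [add_zero] at hv2
          have e1 : (T - (K p + T' p)) + (K p + T' p) = T := by omega
          have hX1 : res γ τ ρ t N (T' p) v ⊆ X := by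
            have := (res_mono (N := N) (T := T' p) hγ hv1).trans (res_mono hγ hu1)
            rwa [e1] at this
          have hX2 : res γ τ ρ t N (T' p) (v + (a : ℤ) ^ T' p * s p) ⊆ X := by
            have := (res_mono (N := N) (T := T' p) hγ hv2).trans (res_mono hγ hu1)
            rwa [e1] at this
          have hc := hT0 (T' p) hT0' v
          have heq : res γ τ ρ t N (T' p) v = X :=
            Set.eq_of_subset_of_ncard_le hX1 (by omega) hfinS
          intro x hx
          rw [← heq] at hx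
          obtain ⟨w', hw', hx'⟩ := hx
          apply hX2
          refine ⟨w' + (b : ℤ) ^ T' p * s p, G_shift hb hw' (s p), ?_⟩
          rw [← hx']
          push_cast
          ring
      rw [hall, Set.ncard_univ, Nat.card_zmod] at hcon
      omega
  obtain ⟨T0, hT0⟩ := hgrow N le_rfl
  have h1 := hT0 T0 le_rfl u
  have hun : res γ τ ρ t N T0 u = Set.univ := by
    apply Set.eq_of_subset_of_ncard_le (Set.subset_univ _)
    rw [Set.ncard_univ, Nat.card_zmod]
    exact h1
  have h2 : (r : ZMod N) ∈ res γ τ ρ t N T0 u := by rw [hun]; exact Set.mem_univ _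
  obtain ⟨v, hv, hvr⟩ := h2
  refine ⟨T0, v, hv, ?_⟩
  have h3 := (ZMod.intCast_eq_intCast_iff_dvd_sub _ _ _).mp hvr.symm
  rw [hN] at h3
  push_cast at h3
  exact h3

end Pool.Agent.Helper96.ML
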