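import Pool.Agent.Helper96.ML.Params

/-! # One excursion: from the cell to a point just below `t` and back -/

namespace Pool.Agent.Helper96.ML

open Filter Topology

theorem step {a b : ℕ} (ha : 2 ≤ a) (hcop : a.Coprime b) (hab : a < b) {τ ρ t0 : ℝ}
    (hP : Par a b τ ρ t0) {t : ℝ} (ht0 : t0 ≤ t) {δ : ℝ} (hδ : 0 < δ) (hδρ : δ ≤ ρ)
    (hδs : δ ≤ 1 / 32) (u0 : ℤ) :
    ∃ (nA nB : ℕ) (v1 v : ℤ) (t' : ℝ), 0 < nB ∧ t - δ ≤ t' ∧ t' ≤ t - δ / 2 ∧
      GH ((a : ℝ) / b) t nA u0 τ ρ v1 t' (δ / 2) ∧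
      GH ((a : ℝ) / b) t nB v1 t' (δ / 2) v τ ρ := by
  have ha0 : 0 < a := by omega
  have hb0 : 0 < b := by omega
  have ha' : (0 : ℝ) < a := by exact_mod_cast ha0
  have hb' : (0 : ℝ) < b := by exact_mod_cast hb0
  have hab' : (a : ℝ) < b := by exact_mod_cast hab
  have ha2 : (2 : ℝ) ≤ a := by exact_mod_cast ha
  have hb3 : (3 : ℝ) ≤ b := by
    exact_mod_cast (by omega : 3 ≤ b)
  set γ : ℝ := (a : ℝ) / b with hγ
  have hγ0 : 0 < γ := by positivity
  have hγ1 : γ < 1 := by rw [hγ, div_lt_one hb']; exact hab'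
  set κ : ℝ := 1 / (2 * a) + 1 / (2 * b) with hκ
  have hκ1 : κ ≤ 5 / 12 := by
    have e1 : 1 / (2 * (a : ℝ)) ≤ 1 / 4 := by
      apply one_div_le_one_div_of_le (by norm_num); linarith
    have e2 : 1 / (2 * (b : ℝ)) ≤ 1 / 6 := by
      apply one_div_le_one_div_of_le (by norm_num); linarith
    rw [hκ]; linarith
  have hρ0 := hP.rho_pos
  have hτ0 := hP.tau_pos
  have hs := hP.sum_le
  have hρ32 := hP.rho_le
  have ht15 := hP.le_t0
  -- lengths
  have h1 : Tendsto (fun n : ℕ => γ ^ n) atTop (𝓝 0) :=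
    tendsto_pow_atTop_nhds_zero_of_lt_one hγ0.le hγ1
  have h2 : ∀ᶠ n : ℕ in atTop, γ ^ n < δ / 4 := h1.eventually_lt_const (by positivity)
  obtain ⟨N, hN⟩ := h2.exists
  have hNpos : 0 < γ ^ N := pow_pos hγ0 N
  have hNh : ∀ h : ℝ, δ / 4 ≤ h → γ ^ N / (2 * b) ≤ h := by
    intro h hh
    rw [div_le_iff₀ (by positivity)]
    have : h * 1 ≤ h * (2 * b) := mul_le_mul_of_nonneg_left (by linarith) (by linarith)
    linarith
  have hN1 : γ ^ (N + 1) ≤ γ ^ N := pow_le_pow_of_le_one hγ0.le hγ1.le (by omega)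
  have hN1pos : 0 < γ ^ (N + 1) := pow_pos hγ0 _
  have hργ : ρ * γ ^ (N + 1) ≤ δ / 2 := by
    have : ρ * γ ^ (N + 1) ≤ 1 * γ ^ (N + 1) := mul_le_mul_of_nonneg_right (by linarith) hN1pos.le
    linarith
  -- the peak
  obtain ⟨t', ht', hchB⟩ := target ha0 hab τ N (t - 3 * δ / 4) (δ / 4) (hNh _ le_rfl)
  obtain ⟨x0, hx0, hchA⟩ := target ha0 hab t' N τ (ρ / 2) (hNh _ (by linarith))
  rw [abs_le] at ht' hx0
  obtain ⟨rB, hrB⟩ := lift ha0 hcop hb0 0 0 (N + 1) t' τ hchB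
  obtain ⟨rA, hrA⟩ := lift ha0 hcop hb0 (N + 1) rB (N + 1) x0 t' hchA
  obtain ⟨n, u, hu, hur⟩ := hP.steer ((N + 1) + (N + 1)) u0 rA
  obtain ⟨v1, hv1, hv1e, hv1m⟩ := hrA u hur
  obtain ⟨v, hv, hve, hvm⟩ := hrB v1 (by rwa [add_zero])
  have hpow : ∀ j, γ ^ j ≤ 1 := fun j => pow_le_one₀ hγ0.le hγ1.le
  have hpow0 : ∀ j, 0 < γ ^ j := fun j => pow_pos hγ0 j
  have hA : GH γ t (N + 1) u τ ρ v1 t' (δ / 2) := by
    refine ⟨fun j hj => ?_, ?_⟩
    · have hpj : δ / 2 * γ ^ j ≤ δ / 2 * 1 := mul_le_mul_of_nonneg_left (hpow j) (by linarith)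
      rcases Nat.eq_zero_or_pos j with h0 | h0
      · refine ⟨v1, ?_⟩
        rw [h0, pow_zero, one_mul, mul_one]
        rw [abs_le]
        constructor <;> linarith
      · rcases Nat.lt_or_ge j (N + 1) with hlt | hge
        · obtain ⟨w, hw⟩ := hv1m j h0 hlt
          exact ⟨w, by linarith⟩
        · have hje : j = N + 1 := by omega
          subst hje
          refine ⟨u, ?_⟩
          rw [hv1e]
          rw [abs_le]
          constructor <;> linarith
    · rw [hv1e, abs_le]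
      have hpj : δ / 2 * γ ^ (N + 1) ≤ δ / 2 * 1 :=
        mul_le_mul_of_nonneg_left (hpow _) (by linarith)
      constructor <;> linarith
  have hB : GH γ t (N + 1) v1 t' (δ / 2) v τ ρ := by
    refine ⟨fun j hj => ?_, ?_⟩
    · have hpj : ρ * γ ^ j ≤ ρ * 1 := mul_le_mul_of_nonneg_left (hpow j) (by linarith)
      rcases Nat.eq_zero_or_pos j with h0 | h0
      · refine ⟨v, ?_⟩
        rw [h0, pow_zero, one_mul, mul_one]
        rw [abs_le]
        constructor <;> linarith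
      · rcases Nat.lt_or_ge j (N + 1) with hlt | hge
        · obtain ⟨w, hw⟩ := hvm j h0 hlt
          exact ⟨w, by linarith⟩
        · have hje : j = N + 1 := by omega
          subst hje
          refine ⟨v1, ?_⟩
          rw [hve]
          rw [abs_le]
          constructor <;> linarith
    · rw [hve, sub_self, abs_zero]
      linarith
  refine ⟨n + (N + 1), N + 1, v1, v, t', by omega, by linarith, by linarith, ?_, hB⟩
  exact GH_trans hγ0.le (GH_mono ht0 hu) hA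

end Pool.Agent.Helper96.ML
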